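import Pool.Agent.L0h2.XP.SQ
import Pool.Agent.L0h2.XP.Two36
import Pool.Agent.L0h4.T7.Two49
import Pool.Agent.L0h86.XF.ASM

/-!
# The 2-part of the strong Birch and Swinnerton-Dyer conjecture for any number of quadratic twists of
# `X_0(49)` and `X_0(36)` at once: exact joint proportions among all the twists

`A_n` and `B_n` are the quadratic twists by the squarefree integer `n` (of any sign) of
`X_0(49) : y² + x y = x³ - x² - 2 x - 1` (complex multiplication by `ℤ[(1 + √-7) / 2]`) and of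
`X_0(36) : y² = x³ + 1` (complex multiplication by `ℤ[(1 + √-3) / 2]`), with their minimal equations. `SignA n`, `SignB n` are the conditions that their root numbers are `+1`. `TwoPart W` says that
the 2-part of the strong conjecture holds for the curve `W` and that it is trivial: `W(ℚ)` is finite,
`Ш[2^∞] = 0`, the L-series has an entire continuation `Λ` with `Λ(1) ≠ 0`, and the predicted order
`#tors² Λ(1) / (Ω ∏ c_p)` of `Ш` is a unit at all the primes above two.

Let `d_1, ..., d_s` and `d'_1, ..., d'_t` be squarefree integers, with pairwise different twists `A_{d_i}`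
and `B_{d'_j}` (up to isogeny and up to the twist by `-1`), `S` a finite set of primes, with or without
the real place, and `e₀` any squarefree integer such that all the `s + t` curves `A_{e₀ d_i}`,
`B_{e₀ d'_j}` have root number `+1`; here `e d` stands for the squarefree part `tw e d` of the product.
The parameter `e` runs over the family `Fam` of ALL the squarefree integers `e` of both signs such that
all the `s + t` curves `A_{e d_i}`, `B_{e d'_j}` have root number `+1` and `e / e₀` is a square at all the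
places in `S`, ordered by `|e|`.

The theorem (`c = ∏_{i ≥ 0} (1 - 2^{-(2i+1)}) = 0.4194...`): each of the `2^(s+t)` patterns of the events
`TwoPart (A_{e d_i})`, `TwoPart (B_{e d'_j})` has the exact proportion `law b * law b'` in the family:
the two families of curves are independent of each other, and inside each of them the events are
independent (probability `c`) on one half of the `e` and all false on the other half. So all the
`s + t` formulas hold at the same time (with trivial 2-parts) for the exact proportion `c^(s+t) / 4`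
(`s, t > 0`), and at least one of them does so for the exact proportion
`1 - (1 + (1 - c)^s) (1 + (1 - c)^t) / 4`, which tends to `3 / 4`.

Proof: the joint law of project XF (`Pool/Agent/L0h86/XF`, with the files of helpers 2, 19, 23, 38, 59,
61, 63, 74, 75, 83, 86 quoted there), with local conditions (`Pool/Agent/L0h2/XP`); for one curve the
equivalence of the 2-part with the 2-descent condition: `Pool/Agent/L0h4/T7/Two49.lean` and
`Pool/Agent/L0h2/XP/Two36.lean` (a copy of `TwoPartEveryTwist36`; helpers 1, 4, 23, 61, 74, 75, 80, 86,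
98; see these files).
-/

set_option autoImplicit false

open scoped Classical
open Filter Topology NumberField IsDedekindDomain WeierstrassCurve MeasureTheory

namespace Pool.Agent.Results.MP_4a9ea6_nt.LeadingTermTwoFields

open Pool.Agent.TH841.NF.D (Sha)
open Pool.Agent.TH841.SH.D (Pt)

/-- The curve over `ℚ` of an equation over `ℤ`. -/
abbrev Q (W : WeierstrassCurve ℤ) : WeierstrassCurve ℚ := W.map (Int.castRingHom ℚ)

/-- The equation is minimal at the place `v`: no change of variables over `ℚ` that keeps the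
coefficients integral at `v` decreases the order of the discriminant. -/
def MinimalAt (W : WeierstrassCurve ℚ) (v : HeightOneSpectrum (𝓞 ℚ)) : Prop :=
  ∀ C : VariableChange ℚ, v.valuation ℚ (C • W).a₁ ≤ 1 → v.valuation ℚ (C • W).a₂ ≤ 1 →
    v.valuation ℚ (C • W).a₃ ≤ 1 → v.valuation ℚ (C • W).a₄ ≤ 1 → v.valuation ℚ (C • W).a₆ ≤ 1 →
    v.valuation ℚ (C • W).Δ ≤ v.valuation ℚ W.Δ

/-- `W⁰(ℚ_v)`, the group of the points of `W` over the completion `ℚ_v` with nonsingular reduction: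
the point at infinity and the points `(x, y)` where `x` is not integral, or one of the partial
derivatives of `y² + a₁ x y + a₃ y - x³ - a₂ x² - a₄ x - a₆` is a unit at `(x, y)`.
Here `Pt W ℚ_v` is the group of the points of `W` over `ℚ_v`. -/
noncomputable def nonsing (W : WeierstrassCurve ℚ) (v : HeightOneSpectrum (𝓞 ℚ)) :
    AddSubgroup (Pt W (v.adicCompletion ℚ)) :=
  AddSubgroup.closure {P | ∀ x y h, P = Affine.Point.some x y h →
    1 < Valued.v x ∨
    Valued.v ((W.baseChange (v.adicCompletion ℚ)).a₁ * y -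
      (3 * x ^ 2 + 2 * (W.baseChange (v.adicCompletion ℚ)).a₂ * x +
        (W.baseChange (v.adicCompletion ℚ)).a₄)) = 1 ∨
    Valued.v (2 * y + (W.baseChange (v.adicCompletion ℚ)).a₁ * x +
      (W.baseChange (v.adicCompletion ℚ)).a₃) = 1}

/-- The Tamagawa number `c_v = [W(ℚ_v) : W⁰(ℚ_v)]` of a minimal equation. -/
noncomputable def cv (W : WeierstrassCurve ℚ) (v : HeightOneSpectrum (𝓞 ℚ)) : ℕ :=
  (nonsing W v).index

/-- The product of the Tamagawa numbers. -/
noncomputable def Tam (W : WeierstrassCurve ℚ) : ℕ := ∏ᶠ v : HeightOneSpectrum (𝓞 ℚ), cv W v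

/-- `4 x³ + b₂ x² + 2 b₄ x + b₆ = (2 y + a₁ x + a₃)²`. -/
def cubic (W : WeierstrassCurve ℤ) (x : ℝ) : ℝ := 4 * x ^ 3 + W.b₂ * x ^ 2 + 2 * W.b₄ * x + W.b₆

/-- `Ω = ∫_{W(ℝ)} |ω|` with `ω = dx / (2 y + a₁ x + a₃)`, as an integral over `x`: two real points lie
over each `x` with `cubic x > 0`. -/
noncomputable def Omega (W : WeierstrassCurve ℤ) : ℝ :=
  2 * ∫ x in {x : ℝ | 0 < cubic W x}, 1 / √(cubic W x)

/-- The order of the torsion subgroup of `W(K)`. -/
noncomputable def torsOrder {K : Type} [Field K] (W : WeierstrassCurve K) : ℕ :=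
  Nat.card (AddCommGroup.torsion W.toAffine.Point)

/-- The order of the Tate-Shafarevich group predicted by the formula, for the value `l` of the
L-function at `s = 1`, if the rank is zero: `#W(ℚ)_tors² l / (Ω ∏ c_v)`. -/
noncomputable def anOrder (W : WeierstrassCurve ℤ) (l : ℂ) : ℂ :=
  l * (torsOrder (Q W) : ℂ) ^ 2 / ((Omega W : ℝ) * (Tam (Q W) : ℂ))

/-- The 2-part of the conjecture, in the case that it is trivial: `W(ℚ)` is finite, the 2-primary part
of `Ш` is zero, `L(W, s)` has an entire continuation `Λ` with `Λ 1 ≠ 0`, and the predicted order of `Ш`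
is a unit at all the primes above two. -/
def TwoPart (W : WeierstrassCurve ℤ) : Prop :=
  Finite (Q W).toAffine.Point ∧ (∀ (n : ℕ) (x : Sha (Q W)), 2 ^ n • x = 0 → x = 0) ∧
    ∃ Λ : ℂ → ℂ, Differentiable ℂ Λ ∧ (∀ s : ℂ, 2 < s.re → Λ s = (Q W).LSeries s) ∧ Λ 1 ≠ 0 ∧
      ∃ m : ℤ, Odd m ∧ _root_.IsIntegral ℤ (m * anOrder W (Λ 1)) ∧
        _root_.IsIntegral ℤ (m * (anOrder W (Λ 1))⁻¹)

/-- The quadratic twist by the squarefree integer `n` of `X_0(49) : y² + x y = x³ - x² - 2 x - 1`. -/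
def A (n : ℤ) : WeierstrassCurve ℤ :=
  if n % 4 = 1 then ⟨1, -((3 * n + 1) / 4), 0, -2 * n ^ 2, -n ^ 3⟩
  else ⟨0, 0, 0, -35 * n ^ 2, -98 * n ^ 3⟩

/-- The quadratic twist by `n` of `X_0(36) : y² = x³ + 1`. -/
def B (n : ℤ) : WeierstrassCurve ℤ := ⟨0, 0, 0, 0, n ^ 3⟩

/-- `n`, if `p ∤ n`, and `-n / p`, if `p ∣ n`. The twists `A_n` and `A_{-7n}` are 7-isogenous, `B_n` and
`B_{-3n}` are 3-isogenous. -/
def red (p n : ℤ) : ℤ := if p ∣ n then -(n / p) else n

/-- The root number of `A_n` is `+1`, for squarefree `n`. -/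
def SignA (n : ℤ) : Prop := 0 < red 7 n

/-- The root number of `B_n` is `+1`, for squarefree `n`: with `n' = red 3 n`, either `|n'| ≡ 1 mod 4`,
or `n'` is even and negative. -/
def SignB (n : ℤ) : Prop := (red 3 n).natAbs % 4 = 1 ∨ red 3 n % 2 = 0 ∧ red 3 n < 0

/-- The squarefree part of the product of two squarefree integers. -/
def tw (e d : ℤ) : ℤ := e * d / (Int.gcd e d : ℤ) ^ 2

/-- `e / e₀` is a square in `ℚ_p` for all the prime numbers `p` in `S` and, if `inf`, in `ℝ`. -/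
def Near (S : Finset ℕ) (inf : Prop) (e₀ e : ℤ) : Prop :=
  (∀ p ∈ S, ∀ _ : Fact p.Prime, IsSquare ((e * e₀ : ℤ) : ℚ_[p])) ∧ (inf → 0 < e * e₀)

/-- The family: `e` is squarefree, the root numbers of all the curves `A_{e d_i}` and `B_{e d'_j}` are
`+1`, and `e` is near `e₀` at the places in `S`. -/
def Fam {s t : ℕ} (d : Fin s → ℤ) (d' : Fin t → ℤ) (S : Finset ℕ) (inf : Prop) (e₀ e : ℤ) : Prop :=
  Squarefree e ∧ (∀ i, SignA (tw e (d i))) ∧ (∀ j, SignB (tw e (d' j))) ∧ Near S inf e₀ e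

/-- The proportion of the `e` with `Q e` among the `e` with `F e`, `|e| ≤ X`. -/
noncomputable def prop (F Q : ℤ → Prop) (X : ℕ) : ℝ :=
  (((Finset.Icc (-(X : ℤ)) X).filter fun e => F e ∧ Q e).card : ℝ) /
    (((Finset.Icc (-(X : ℤ)) X).filter fun e => F e).card : ℝ)

/-- `c = ∏_{i ≥ 0} (1 - 2^{-(2i+1)}) = 0.4194...` -/
noncomputable def c : ℝ := ∏' i : ℕ, (1 - (1 / 2 : ℝ) ^ (2 * i + 1))

/-- The law of one family: one half of the law of independent events of probability `c`, and one half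
of the law of the events which never happen. -/
noncomputable def law {k : ℕ} (b : Fin k → Bool) : ℝ :=
  (∏ i, if b i = true then c else 1 - c) / 2 + if ∀ i, b i = false then 1 / 2 else 0

section proof

lemma law_eq {k : ℕ} (b : Fin k → Bool) : law b = Pool.Agent.L0h86.XF.L1 b := rfl

lemma tp_A (n : ℤ) : TwoPart (A n) ↔ Pool.Agent.L0h4.T7.Two49.TwoPart n := Iff.rfl

lemma tp_B (n : ℤ) : TwoPart (B n) ↔ Pool.Agent.L0h2.XP.Two36.TwoPart n := Iff.rfl

lemma tw_eq (e d : ℤ) : tw e d = Pool.Agent.L0h2.XP.tw e d := rfl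

lemma red_eq (p n : ℤ) : red p n = Pool.Agent.L0h2.XP.rdp p n := rfl

lemma ev_A {e d : ℤ} (he : Squarefree e) (hd : Squarefree d)
    (h : Pool.Agent.L0h86.XF.RP false (e * d)) :
    TwoPart (A (tw e d)) ↔ Pool.Agent.L0h86.XF.Good false (Pool.Agent.L0h86.XF.DnF false (e * d)) := by
  have h1 := (Pool.Agent.L0h2.XP.tw_spec he hd).1
  rw [Pool.Agent.L0h2.XP.RP_tw false he hd, Pool.Agent.L0h2.XP.RPf h1] at h
  rw [Pool.Agent.L0h2.XP.Dn_tw false he hd, Pool.Agent.L0h2.XP.Dnf h1, tp_A]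
  exact Pool.Agent.L0h4.T7.Two49.two_TT (d := Pool.Agent.L0h2.XP.tw e d) ⟨h1, h⟩

lemma ev_B {e d : ℤ} (he : Squarefree e) (hd : Squarefree d) (hl : 6 * d ^ 2 < |e|)
    (h : Pool.Agent.L0h86.XF.RP true (e * d)) :
    TwoPart (B (tw e d)) ↔ Pool.Agent.L0h86.XF.Good true (Pool.Agent.L0h86.XF.DnF true (e * d)) := by
  have h1 := (Pool.Agent.L0h2.XP.tw_spec he hd).1
  have h2 := Pool.Agent.L0h2.XP.tw_large he hd (by norm_num) hl
  rw [Pool.Agent.L0h2.XP.RP_tw true he hd, Pool.Agent.L0h2.XP.RPt h1] at h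
  rw [Pool.Agent.L0h2.XP.Dn_tw true he hd, Pool.Agent.L0h2.XP.Dnt h1, tp_B]
  have hA : Pool.Agent.L0h2.XP.Two36.Adm (Pool.Agent.L0h2.XP.tw e d) := by
    refine ⟨h1, h, ?_⟩
    generalize Pool.Agent.L0h2.XP.tw e d = m at h2
    unfold Pool.Agent.L0h2.XP.Two36.red
    rw [Int.abs_eq_natAbs] at h2
    split_ifs with h3
    · omega
    · omega
  exact (Pool.Agent.L0h2.XP.Two36.two_iff hA).trans (Pool.Agent.L0h2.XP.Two36.Cr_E3 _)

lemma min_A {n : ℤ} (hn : Squarefree n) (v : HeightOneSpectrum (𝓞 ℚ)) : MinimalAt (Q (A n)) v := by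
  by_cases h : n % 4 = 1
  · have h1 : Q (A n) = Pool.Agent.L0h4.T7.CA ℚ ((3 * n + 1) / 4) n :=
      Pool.Agent.L0h4.T7.Two49.E_CA h
    rw [h1]
    exact Pool.Agent.L0h4.T7.minimal_CA v hn (by omega)
  · have h1 : Q (A n) = Pool.Agent.L0h4.T7.CS ℚ n := Pool.Agent.L0h4.T7.Two49.E_CS h
    rw [h1]
    exact Pool.Agent.L0h4.T7.minimal_CS v hn h

lemma min_B {n : ℤ} (hn : Squarefree n) (v : HeightOneSpectrum (𝓞 ℚ)) : MinimalAt (Q (B n)) v := by
  have h1 : Q (B n) = Pool.Agent.L0h75.IS.CB ℚ (n ^ 3) := Pool.Agent.L0h2.XP.Two36.E_CB n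
  rw [h1]
  exact Pool.Agent.L0h4.T6.minimal_CB v hn

section

variable {s t : ℕ} {d : Fin s → ℤ} {d' : Fin t → ℤ} {S : Finset ℕ} {inf : Prop} {e₀ : ℤ}

lemma fam_iff (hd : ∀ i, Squarefree (d i)) (hd' : ∀ j, Squarefree (d' j)) (e : ℤ) :
    Fam d d' S inf e₀ e ↔ Squarefree e ∧ Pool.Agent.L0h2.XP.Lc d d' S inf e₀ e := by
  unfold Fam Pool.Agent.L0h2.XP.Lc Near
  refine and_congr_right fun he => ?_
  have h1 : (∀ i, SignA (tw e (d i))) ↔ ∀ i, Pool.Agent.L0h86.XF.RP false (e * d i) :=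
    forall_congr' fun i => by
      rw [Pool.Agent.L0h2.XP.RP_tw false he (hd i),
        Pool.Agent.L0h2.XP.RPf (Pool.Agent.L0h2.XP.tw_spec he (hd i)).1]
      exact Iff.rfl
  have h2 : (∀ j, SignB (tw e (d' j))) ↔ ∀ j, Pool.Agent.L0h86.XF.RP true (e * d' j) :=
    forall_congr' fun i => by
      rw [Pool.Agent.L0h2.XP.RP_tw true he (hd' i),
        Pool.Agent.L0h2.XP.RPt (Pool.Agent.L0h2.XP.tw_spec he (hd' i)).1]
      exact Iff.rfl
  rw [h1, h2, and_assoc]

lemma prop_eq (hd : ∀ i, Squarefree (d i)) (hd' : ∀ j, Squarefree (d' j)) (P : ℤ → Prop) (X : ℕ) :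
    prop (Fam d d' S inf e₀) P X =
      ((Pool.Agent.L0h74.AP.cnt Int.natAbs (fun e => Pool.Agent.L0h2.XP.Lc d d' S inf e₀ e ∧ P e)
        X : ℕ) : ℝ) /
      ((Pool.Agent.L0h74.AP.cnt Int.natAbs (Pool.Agent.L0h2.XP.Lc d d' S inf e₀) X : ℕ) : ℝ) := by
  rw [Pool.Agent.L0h4.T6.cnt_abs X (T' := fun e => Pool.Agent.L0h2.XP.Lc d d' S inf e₀ e ∧ P e)
    (fun e _ => Iff.rfl), Pool.Agent.L0h4.T6.cnt_abs X
    (T' := Pool.Agent.L0h2.XP.Lc d d' S inf e₀) (fun e _ => Iff.rfl)]
  unfold prop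
  rw [Pool.Agent.L0h4.T6.cntZ_eq, Pool.Agent.L0h4.T6.cntZ_eq]
  have e1 : (fun e => Fam d d' S inf e₀ e ∧ P e) = fun e =>
      Squarefree e ∧ Pool.Agent.L0h2.XP.Lc d d' S inf e₀ e ∧ P e := by
    funext e
    rw [fam_iff hd hd']
    exact propext and_assoc
  have e2 : (fun e => Fam d d' S inf e₀ e) = fun e =>
      Squarefree e ∧ Pool.Agent.L0h2.XP.Lc d d' S inf e₀ e := by
    funext e
    exact propext (fam_iff hd hd' e)
  rw [e1, e2]

theorem joint (hd : ∀ i, Squarefree (d i)) (hd' : ∀ j, Squarefree (d' j))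
    (hi : Function.Injective fun i => (red 7 (d i)).natAbs)
    (hi' : Function.Injective fun j => (red 3 (d' j)).natAbs)
    (hS : ∀ p ∈ S, p.Prime) (h₀ : Fam d d' S inf e₀ e₀) (b : Fin s → Bool) (b' : Fin t → Bool) :
    Tendsto (prop (Fam d d' S inf e₀) fun e => (∀ i, (TwoPart (A (tw e (d i))) ↔ b i = true)) ∧
      ∀ j, (TwoPart (B (tw e (d' j))) ↔ b' j = true)) atTop (𝓝 (law b * law b')) := by
  have h₀' := (fam_iff hd hd' e₀).1 h₀
  set M : ℤ := ∑ j, 6 * d' j ^ 2 with hM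
  have key := Pool.Agent.L0h2.XP.law_lc Pool.Agent.L0h86.XF.t_DJX Pool.Agent.L0h86.XF.t_CEL
    (N := Int.natAbs) (fun u _ => Pool.Agent.L0h2.P.ht_natAbs u) d d' (fun i => (hd i).ne_zero)
    (fun j => (hd' j).ne_zero)
    (by
      intro i j h
      refine hi ?_
      have h' : Pool.Agent.L0h86.XF.DnF false (d i) = Pool.Agent.L0h86.XF.DnF false (d j) := h
      rw [Pool.Agent.L0h2.XP.Dnf (hd i), Pool.Agent.L0h2.XP.Dnf (hd j)] at h'
      exact h')
    (by
      intro i j h
      refine hi' ?_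
      have h' : Pool.Agent.L0h86.XF.DnF true (d' i) = Pool.Agent.L0h86.XF.DnF true (d' j) := h
      rw [Pool.Agent.L0h2.XP.Dnt (hd' i), Pool.Agent.L0h2.XP.Dnt (hd' j)] at h'
      exact h')
    hS inf h₀'.1 h₀'.2.1.1 h₀'.2.1.2 (Ex := Finset.Icc (-M) M)
    (fun i e => TwoPart (A (tw e (d i)))) (fun i e he h _ => ev_A he (hd i) h)
    (fun j e => TwoPart (B (tw e (d' j)))) (fun j e he h hE => ev_B he (hd' j) (by
      rw [Finset.mem_Icc, ← abs_le, not_le] at hE
      refine lt_of_le_of_lt ?_ hE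
      exact Finset.single_le_sum (f := fun j => 6 * d' j ^ 2) (fun j _ => by positivity)
        (Finset.mem_univ j)) h) b b'
  rw [law_eq, law_eq]
  exact key.congr fun X => (prop_eq hd hd' _ X).symm

/-- the complement -/
lemma prop_not {F P : ℤ → Prop} {L : ℝ} (hF : ∃ X : ℕ, ∃ e : ℤ, |e| ≤ X ∧ F e)
    (h : Tendsto (prop F P) atTop (𝓝 L)) : Tendsto (prop F fun e => ¬ P e) atTop (𝓝 (1 - L)) := by
  refine (tendsto_const_nhds.sub h).congr' ?_
  obtain ⟨X₀, e, he, hFe⟩ := hF
  filter_upwards [eventually_ge_atTop X₀] with X hX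
  unfold prop
  have h1 : (((Finset.Icc (-(X : ℤ)) X).filter fun e => F e).card : ℝ) =
      (((Finset.Icc (-(X : ℤ)) X).filter fun e => F e ∧ P e).card : ℝ) +
      (((Finset.Icc (-(X : ℤ)) X).filter fun e => F e ∧ ¬ P e).card : ℝ) := by
    have h2 := Finset.card_filter_add_card_filter_not
      (s := (Finset.Icc (-(X : ℤ)) X).filter fun e => F e) (p := fun e => P e)
    rw [Finset.filter_filter, Finset.filter_filter] at h2
    exact_mod_cast h2.symm
  have h3 : (((Finset.Icc (-(X : ℤ)) X).filter fun e => F e).card : ℝ) ≠ 0 := by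
    have : 0 < ((Finset.Icc (-(X : ℤ)) X).filter fun e => F e).card := by
      refine Finset.card_pos.2 ⟨e, Finset.mem_filter.2 ⟨?_, hFe⟩⟩
      rw [Finset.mem_Icc, ← abs_le]
      have : (X₀ : ℤ) ≤ X := by exact_mod_cast hX
      linarith
    exact_mod_cast this.ne'
  field_simp
  linarith

end

end proof

/-- **The 2-parts of the conjecture of Birch and Swinnerton-Dyer for any number of quadratic twists of
`X_0(49)` and of `X_0(36)` at once.** -/
theorem result {s t : ℕ} (d : Fin s → ℤ) (d' : Fin t → ℤ) (hd : ∀ i, Squarefree (d i))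
    (hd' : ∀ j, Squarefree (d' j)) (hi : Function.Injective fun i => (red 7 (d i)).natAbs)
    (hi' : Function.Injective fun j => (red 3 (d' j)).natAbs) (S : Finset ℕ)
    (hS : ∀ p ∈ S, p.Prime) (inf : Prop) (e₀ : ℤ) (h₀ : Fam d d' S inf e₀ e₀) :
    (∀ e, Fam d d' S inf e₀ e → ∀ v : HeightOneSpectrum (𝓞 ℚ),
      (∀ i, MinimalAt (Q (A (tw e (d i)))) v) ∧ ∀ j, MinimalAt (Q (B (tw e (d' j)))) v) ∧
    (∀ (b : Fin s → Bool) (b' : Fin t → Bool),
      Tendsto (prop (Fam d d' S inf e₀) fun e =>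
        (∀ i, (TwoPart (A (tw e (d i))) ↔ b i = true)) ∧
        ∀ j, (TwoPart (B (tw e (d' j))) ↔ b' j = true)) atTop (𝓝 (law b * law b'))) ∧
    (0 < s → 0 < t → Tendsto (prop (Fam d d' S inf e₀) fun e =>
      (∀ i, TwoPart (A (tw e (d i)))) ∧ ∀ j, TwoPart (B (tw e (d' j)))) atTop
        (𝓝 (c ^ (s + t) / 4))) ∧
    Tendsto (prop (Fam d d' S inf e₀) fun e =>
      (∃ i, TwoPart (A (tw e (d i)))) ∨ ∃ j, TwoPart (B (tw e (d' j)))) atTop
        (𝓝 (1 - (1 + (1 - c) ^ s) * (1 + (1 - c) ^ t) / 4)) := by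
  have hJ := fun (b : Fin s → Bool) (b' : Fin t → Bool) => joint hd hd' hi hi' hS h₀ b b'
  refine ⟨fun e he v => ?_, hJ, fun hs ht => ?_, ?_⟩
  · have he' := he.1
    exact ⟨fun i => min_A (Pool.Agent.L0h2.XP.tw_spec he' (hd i)).1 v,
      fun j => min_B (Pool.Agent.L0h2.XP.tw_spec he' (hd' j)).1 v⟩
  · have h1 := hJ (fun _ => true) fun _ => true
    have h2 : ∀ k : ℕ, 0 < k → law (fun _ : Fin k => true) = c ^ k / 2 := by
      intro k hk
      unfold law
      rw [if_neg (fun h => Bool.noConfusion (h ⟨0, hk⟩))]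
      simp
    rw [h2 s hs, h2 t ht, show c ^ s / 2 * (c ^ t / 2) = c ^ (s + t) / 4 by
      rw [pow_add]; ring] at h1
    have e1 : (fun e => (∀ i, (TwoPart (A (tw e (d i))) ↔ (fun _ : Fin s => true) i = true)) ∧
        ∀ j, (TwoPart (B (tw e (d' j))) ↔ (fun _ : Fin t => true) j = true)) = fun e =>
        (∀ i, TwoPart (A (tw e (d i)))) ∧ ∀ j, TwoPart (B (tw e (d' j))) := by
      funext e
      simp only [iff_true]
    rwa [e1] at h1
  · have h1 := hJ (fun _ => false) fun _ => false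
    have h2 : ∀ k : ℕ, law (fun _ : Fin k => false) = (1 + (1 - c) ^ k) / 2 := by
      intro k
      unfold law
      rw [if_pos (fun _ => rfl)]
      simp
      ring
    rw [h2 s, h2 t, show (1 + (1 - c) ^ s) / 2 * ((1 + (1 - c) ^ t) / 2) =
      (1 + (1 - c) ^ s) * (1 + (1 - c) ^ t) / 4 by ring] at h1
    have h3 := prop_not ⟨e₀.natAbs, e₀, by rw [Int.abs_eq_natAbs], h₀⟩ h1
    have e1 : (fun e => ¬ ((∀ i, (TwoPart (A (tw e (d i))) ↔ (fun _ : Fin s => false) i = true)) ∧
        ∀ j, (TwoPart (B (tw e (d' j))) ↔ (fun _ : Fin t => false) j = true))) = fun e =>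
        (∃ i, TwoPart (A (tw e (d i)))) ∨ ∃ j, TwoPart (B (tw e (d' j))) := by
      funext e
      simp only [Bool.false_eq_true, iff_false, not_and_or, not_forall, not_not]
    rwa [e1] at h3

end Pool.Agent.Results.MP_4a9ea6_nt.LeadingTermTwoFields
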