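import Pool.Agent.L0h4.T3.Cvm
import Pool.Agent.L0h4.T4.Cof
import Pool.Agent.L0h4.T6.Asm3
import Pool.Agent.L0h4.T6.Law
import Pool.Agent.L0h4.T6.Loc3
import Pool.Agent.L0h61.T4.Cvn
import Pool.Agent.L0h86.F3.Fin
import Pool.Agent.L0h86.F5.CorC

/-!
# The 2-part of the strong Birch and Swinnerton-Dyer conjecture over `ℚ` for all the quadratic twists
# of `X_0(36)` with root number `+1`

`E_d : y² = x³ + d³` is the quadratic twist by the squarefree integer `d` of `X_0(36) : y² = x³ + 1`.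
With `d' = d` if `3 ∤ d` and `d' = -d / 3` if `3 ∣ d`, the root number of `E_d` is `+1` if and only if
`|d'| ≡ 1 mod 4`, or `d'` is even and negative. These are all the `d` considered here, but for `±1`,
`±3`, `-2` and `6`: the sign and the prime factors of `d` are arbitrary.
Let `z = #E_d(ℚ)_tors² L(E_d, 1) / (Ω ∏ c_p)`, which is zero or the order of `Ш(E_d/ℚ)` according to
the conjecture. The theorem says, with no hypothesis on the rank or on `Ш`:
* `L(E_d, s)` is entire, the equation of `E_d` is minimal, the order of the torsion subgroup is twice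
  an odd number, and `∏ c_p = 2 · 2 ^ t`, or `6 · 2 ^ t` (for `d ≡ 1 mod 8`), or `4 · 2 ^ t` (for even
  `d`), `t` the number of the prime ideals `≠ (2)` of `ℤ[ω]`, `ω = (-1 + √-3) / 2`, which divide `d'`;
* `z` is an algebraic number which is integral at all the primes above two;
* `z` is a unit at one prime above two iff it is so at all of them iff `E_d(ℚ)` is finite and
  `Ш(E_d/ℚ)` has no element of order two iff `Cr d`: an explicit matrix over `𝔽₂` of the quadratic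
  residue symbols between the normalised prime elements of `ℤ[ω]` which divide `d'` (and `-2`, `√-3`,
  if `d` is even) is not singular;
* in this case `L(E_d, 1) ≠ 0` and the 2-primary part of `Ш(E_d/ℚ)` is zero;
* let `S` be a finite set of places of `ℚ` and `d₀` squarefree such that the root number of `E_{d₀}` is
  `+1`: among the squarefree `d`, `|d| ≤ X`, such that the root number of `E_d` is `+1` and `d / d₀` is a
  square in `ℚ_v` for all `v ∈ S`, the proportion of the `d` for which this 2-part holds is exactly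
  `(1/2) ∏_{i ≥ 0} (1 - 2^{-(2i+1)}) = 0.2097...`, as `X → ∞` (for `S` empty: among all the twists with
  root number `+1`).

Proof: `Pool/Agent/L0h86/F3`, `F5`, `Pool/Agent/L0h75/F5`, `Pool/Agent/L0h4/T4`, `T5`,
`Pool/Agent/L0h1/F3R`, `F5` (the value `L(E_d, 1)` modulo the powers of two: sums of `℘`-functions over
division points of the hexagonal lattice, which is supersingular at two, and an induction over the sets
of the prime ideals of `K`; the criterion comes out as a determinant over `𝔽₄`), `Pool/Agent/L0h86/F1`,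
`F4`, `Pool/Agent/L0h80/TN`, `TC`, `Pool/Agent/L0h4/T6` (period, Tamagawa numbers, torsion),
`Pool/Agent/L0h4/T3`, `T4` (the Euler products, the converse), `Pool/Agent/L0h23/FD`, `FZ`, `FC`, `FR`
(2-descent over `K`, reciprocity laws), `Pool/Agent/L0h61/T3`, `T4`, `T5` (the determinant over `𝔽₄` and
the linear system over `𝔽₂`, local conditions, the converse), `Pool/Agent/L0h80/F3` (generators),
`Pool/Agent/L0h4/T6`, `Pool/Agent/L0h75/IS`, `Pool/Agent/L0h1/F3R` (the 3-isogeny `E_d → E_{-3d}`: points,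
`Ш`, L-series), `Pool/Agent/L0h74/T3`, `E3`, `Pool/Agent/L0h75/E3`, `Pool/Agent/L0h86/E3` (the
proportions). Joint work of helpers 86, 4, 23, 61, 74, 75, 80, 1.
-/

set_option autoImplicit false

open NumberField IsDedekindDomain WeierstrassCurve MeasureTheory

namespace Pool.Agent.Results.MP_4a9ea6_nt.TwoPartEveryTwist36

open Pool.Agent.TH841.NF.D (Sha)
open Pool.Agent.TH841.SH.D (Pt)

/-- The quadratic twist by `d` of `X_0(36) : y² = x³ + 1`. -/
def twist (d : ℤ) : WeierstrassCurve ℤ := ⟨0, 0, 0, 0, d ^ 3⟩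

/-- The curve over `ℚ`. -/
abbrev E (d : ℤ) : WeierstrassCurve ℚ := (twist d).map (Int.castRingHom ℚ)

/-- The equation is minimal at the place `v`: no change of variables over `ℚ` that keeps the
coefficients integral at `v` decreases the order of the discriminant. -/
def MinimalAt (W : WeierstrassCurve ℚ) (v : HeightOneSpectrum (𝓞 ℚ)) : Prop :=
  ∀ C : VariableChange ℚ, v.valuation ℚ (C • W).a₁ ≤ 1 → v.valuation ℚ (C • W).a₂ ≤ 1 →
    v.valuation ℚ (C • W).a₃ ≤ 1 → v.valuation ℚ (C • W).a₄ ≤ 1 → v.valuation ℚ (C • W).a₆ ≤ 1 →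
    v.valuation ℚ (C • W).Δ ≤ v.valuation ℚ W.Δ

/-- `W⁰(ℚ_v)`, the group of the points of `W` over the completion `ℚ_v` with nonsingular reduction:
the point at infinity and the points `(x, y)` where `x` is not integral, or one of the partial
derivatives of `y² + a₁ x y + a₃ y - x³ - a₂ x² - a₄ x - a₆` is a unit at `(x, y)`.
Here `Pt W ℚ_v` is the group of the points of `W` over `ℚ_v`. -/
noncomputable def nonsing (W : WeierstrassCurve ℚ) (v : HeightOneSpectrum (𝓞 ℚ)) :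
    AddSubgroup (Pt W (v.adicCompletion ℚ)) :=
  AddSubgroup.closure {P | ∀ x y h, P = Affine.Point.some x y h →
    1 < Valued.v x ∨
    Valued.v ((W.baseChange (v.adicCompletion ℚ)).a₁ * y -
      (3 * x ^ 2 + 2 * (W.baseChange (v.adicCompletion ℚ)).a₂ * x +
        (W.baseChange (v.adicCompletion ℚ)).a₄)) = 1 ∨
    Valued.v (2 * y + (W.baseChange (v.adicCompletion ℚ)).a₁ * x +
      (W.baseChange (v.adicCompletion ℚ)).a₃) = 1}

/-- The Tamagawa number `c_v = [W(ℚ_v) : W⁰(ℚ_v)]` of a minimal equation. -/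
noncomputable def c (W : WeierstrassCurve ℚ) (v : HeightOneSpectrum (𝓞 ℚ)) : ℕ :=
  (nonsing W v).index

/-- The product of the Tamagawa numbers. -/
noncomputable def Tam (W : WeierstrassCurve ℚ) : ℕ := ∏ᶠ v : HeightOneSpectrum (𝓞 ℚ), c W v

/-- `4 x³ + b₂ x² + 2 b₄ x + b₆ = (2 y + a₁ x + a₃)²`. -/
def cubic (W : WeierstrassCurve ℤ) (x : ℝ) : ℝ := 4 * x ^ 3 + W.b₂ * x ^ 2 + 2 * W.b₄ * x + W.b₆

/-- `Ω = ∫_{W(ℝ)} |ω|` with `ω = dx / (2 y + a₁ x + a₃)`, as an integral over `x`: two real points lie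
over each `x` with `cubic x > 0`. -/
noncomputable def Omega (W : WeierstrassCurve ℤ) : ℝ :=
  2 * ∫ x in {x : ℝ | 0 < cubic W x}, 1 / √(cubic W x)

open Classical in
/-- The order of the torsion subgroup of `W(K)`. -/
noncomputable def torsOrder {K : Type} [Field K] (W : WeierstrassCurve K) : ℕ :=
  Nat.card (AddCommGroup.torsion W.toAffine.Point)

/-- The order of the Tate-Shafarevich group predicted by the formula, for the value `l` of the
L-function of `E_d` at `s = 1`: `#E_d(ℚ)_tors² l / (Ω ∏ c_v)`. -/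
noncomputable def anOrder (d : ℤ) (l : ℂ) : ℂ :=
  l * (torsOrder (E d) : ℂ) ^ 2 / ((Omega (twist d) : ℝ) * (Tam (E d) : ℂ))

/-- The integer `d`, if it is prime to `3`, and `-d / 3`, if `3 ∣ d` (the twists by `d` and by `-3 d`
are 3-isogenous). -/
def red (d : ℤ) : ℤ := if 3 ∣ d then -(d / 3) else d

/-- The root number of `E_d` is `+1` (for squarefree `d`): with `d' = red d`, either `|d'| ≡ 1 mod 4`,
or `d'` is even and negative. -/
def Sign (d : ℤ) : Prop := (red d).natAbs % 4 = 1 ∨ red d % 2 = 0 ∧ red d < 0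

/-- `d` is squarefree, the root number of `E_d` is `+1`, and `d` is not `1, -1, 3, -3, -2, 6`. -/
def Adm (d : ℤ) : Prop := Squarefree d ∧ Sign d ∧ 2 < (red d).natAbs

/-- `d / d₀` is a square in `ℚ_p` for all the prime numbers `p` in `S` and, if `inf`, in `ℝ`. -/
def Near (S : Finset ℕ) (inf : Prop) (d₀ d : ℤ) : Prop :=
  (∀ p ∈ S, ∀ _ : Fact p.Prime, IsSquare ((d * d₀ : ℤ) : ℚ_[p])) ∧ (inf → 0 < d * d₀)

/-- The complex number `ω = (-1 + √-3) / 2`, with real part `-1 / 2` and imaginary part `√3 / 2`. -/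
noncomputable def om : ℂ := ⟨-1 / 2, Real.sqrt 3 / 2⟩

/-- The ring `ℤ[ω]` of the integers of `K = ℚ(√-3)`, as a subring of `ℂ`: its elements are the numbers
`x + y ω`, `x, y ∈ ℤ` (see `mem_O`). -/
noncomputable abbrev O : Subring ℂ := Pool.Agent.Y696.eis

lemma mem_O (z : ℂ) : z ∈ O ↔ ∃ x y : ℤ, z = x + y * om := Pool.Agent.Y696.mem_eis z

/-- The element `ω` of `ℤ[ω]`. -/
noncomputable def ω : O := ⟨om, (mem_O om).2 ⟨0, 1, by push_cast; ring⟩⟩

/-- The element `√-3 = 1 + 2 ω` of `ℤ[ω]`. -/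
noncomputable def rt : O := ((1 : ℤ) : O) + ((2 : ℤ) : O) * ω

lemma rt_sq : rt ^ 2 = -3 := by
  have h : (rt : O) = Pool.Agent.Y715.T.Lat.la := rfl
  apply Subtype.ext
  rw [h]
  push_cast
  rw [Pool.Agent.Y715.T.Lat.la_coe, pow_two, Pool.Agent.Y715.T.Three.lam_sq]
  rfl

/-- The complex conjugate of an element of `ℤ[ω]`. -/
noncomputable def bar (x : O) : O := ⟨(starRingEnd ℂ) x, Pool.Agent.Y696.conj_mem x.2⟩

/-- The normalised prime elements which divide `D`: one generator `π` of every prime ideal `≠ (2)` of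
`ℤ[ω]` which divides `D`, the one with `π ≡ 1` modulo `2 √-3` (`D` will be prime to `3`). -/
def primes (D : ℕ) : Set O := {π | D ≠ 0 ∧ Prime π ∧ π ∣ (D : O) ∧ 2 * rt ∣ π - 1}

noncomputable instance (D : ℕ) : Fintype (primes D) := Pool.Agent.L0h86.F3.inst_pset D

open Classical in
/-- `1` if `x` is not a square modulo `y`, and `0` if it is. -/
noncomputable def nonsq (x y : O) : ZMod 2 := if ∃ z : O, y ∣ x - z ^ 2 then 0 else 1

open Classical in
/-- `1` if `√-3 (D / y)` is not a square modulo `y`, and `0` if it is (for a divisor `y` of `D`). -/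
noncomputable def diag (D : ℕ) (y : O) : ZMod 2 :=
  if ∃ u z : O, (D : O) = y * u ∧ y ∣ rt * u - z ^ 2 then 0 else 1

open Classical in
/-- The matrix over the field with two elements, with rows and columns indexed by the normalised prime
elements which divide `D`: the entry at `(i, i)` is `diag D i`; the entry at `(i, j)` for `i ≠ j` is
`nonsq j i`, plus `nonsq (-1) i` if `j` is the conjugate of `i`. -/
noncomputable def mat (D : ℕ) : Matrix (primes D) (primes D) (ZMod 2) := Matrix.of fun i j =>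
  if i = j then diag D i else nonsq j i + if (j : O) = bar i then nonsq (-1) i else 0

/-- For even `D`: the matrix `mat D` with one more column, with the entries `nonsq (-2) i`, one more
row, with the entries `nonsq √-3 j`, and with the last entry `1` if `D ≡ 2 mod 8` and `0` if not. -/
noncomputable def bmat (D : ℕ) : Matrix (Option (primes D)) (Option (primes D)) (ZMod 2) :=
  Matrix.of fun i j => match i, j with
    | some i, some j => mat D i j
    | some i, none => nonsq (-2) i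
    | none, some j => nonsq rt j
    | none, none => if D % 8 = 2 then 1 else 0

/-- The criterion: the matrix of `|red d|` is not singular. -/
def Cr (d : ℤ) : Prop :=
  if d % 2 = 0 then (bmat (red d).natAbs).det ≠ 0 else (mat (red d).natAbs).det ≠ 0

/-- The 2-part of the conjecture, in the case that `z` is a unit at two: `L(E_d, s)` has an entire
continuation `Λ` with `Λ 1 ≠ 0`, `E_d(ℚ)` is finite, the 2-primary part of `Ш` is zero, and the
predicted order of `Ш` is a unit at all the primes above two. -/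
def TwoPart (d : ℤ) : Prop :=
  Finite (E d).toAffine.Point ∧ (∀ (n : ℕ) (x : Sha (E d)), 2 ^ n • x = 0 → x = 0) ∧
    ∃ Λ : ℂ → ℂ, Differentiable ℂ Λ ∧ (∀ s : ℂ, 2 < s.re → Λ s = (E d).LSeries s) ∧ Λ 1 ≠ 0 ∧
      ∃ m : ℤ, Odd m ∧ _root_.IsIntegral ℤ (m * anOrder d (Λ 1)) ∧
        _root_.IsIntegral ℤ (m * (anOrder d (Λ 1))⁻¹)

section proof

open Pool.Agent.L0h86.F1 (WM AdmM psM M1 M2)
open Pool.Agent.L0h86.F3 (quoM coreM cr_iff mM pset)
open Pool.Agent.L0h86.F4 (quoN psN)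
open Pool.Agent.L0h86.F5 (quoC psC coreC admC_exists_dt admC_prod)
open Pool.Agent.L0h4.T4 (WN coreN WC AdmC)
open Pool.Agent.L0h4.T5 (mC)

/-- the parameters prime to three -/
def Adm0 (d : ℤ) : Prop :=
  2 < d.natAbs ∧ Squarefree d.natAbs ∧ ¬ 3 ∣ d.natAbs ∧ (d.natAbs % 4 = 1 ∨ d % 2 = 0 ∧ d < 0)

/-- the criterion for them -/
def Cr0 (d : ℤ) : Prop := if d % 2 = 0 then (bmat d.natAbs).det ≠ 0 else (mat d.natAbs).det ≠ 0

lemma adm_odd {d : ℤ} (h : Adm0 d) (h2 : d % 2 ≠ 0) : AdmM d.natAbs :=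
  ⟨h.2.1, by rcases h.2.2.2 with h3 | h3 <;> omega, h.2.2.1⟩

lemma adm_even {d : ℤ} (h : Adm0 d) (h2 : d % 2 = 0) :
    ∃ m : ℕ, d = -(2 * (m : ℤ)) ∧ 1 < m ∧ AdmC m := by
  obtain ⟨h1, h3, h4, h5⟩ := h
  have h6 : d.natAbs % 2 = 0 := by omega
  obtain ⟨m, hm⟩ : ∃ m : ℕ, d.natAbs = 2 * m := ⟨d.natAbs / 2, by omega⟩
  have hmo : m % 2 = 1 := by
    by_contra hc
    obtain ⟨k, hk⟩ : ∃ k : ℕ, m = 2 * k := ⟨m / 2, by omega⟩
    have h7 := h3 2 ⟨k, by rw [hm, hk]; ring⟩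
    exact absurd (Nat.isUnit_iff.1 h7) (by norm_num)
  refine ⟨m, by omega, by omega, ?_, hmo, fun h7 => h4 (by rw [hm]; exact h7.mul_left 2)⟩
  rw [hm] at h3
  exact h3.squarefree_of_dvd (Dvd.intro_left 2 rfl)

lemma even_adm {m : ℕ} (h1 : 1 < m) (h : AdmC m) : Adm0 (-(2 * (m : ℤ))) := by
  have e : (-(2 * (m : ℤ))).natAbs = 2 * m := by omega
  have hm := h.m2
  refine ⟨by omega, ?_, ?_, Or.inr ⟨by omega, by omega⟩⟩
  · rw [e, Nat.squarefree_mul ((Nat.coprime_two_left (n := m)).2 (Nat.odd_iff.2 hm))]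
    exact ⟨Nat.prime_two.squarefree, h.sf⟩
  · rw [e]
    intro h3
    exact h.n3 ((Nat.Coprime.dvd_mul_left (by norm_num : Nat.Coprime 3 2)).1 h3)

lemma E_pos (D : ℕ) : E (D : ℤ) = WM ℚ D := by
  unfold E twist WM
  ext
  · simp
  · simp
  · simp
  · simp
  · simp

lemma E_neg (D : ℕ) : E (-(D : ℤ)) = WN ℚ D := by
  unfold E twist WN
  ext
  · simp
  · simp
  · simp
  · simp
  · have e : (-(D : ℤ)) ^ 3 = -((D : ℤ) ^ 3) := by ring
    rw [e]
    simp

lemma E_two (m : ℕ) : E (-(2 * (m : ℤ))) = WC ℚ m := by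
  unfold E twist WC
  ext
  · simp
  · simp
  · simp
  · simp
  · have e : (-(2 * (m : ℤ))) ^ 3 = -(8 * (m : ℤ) ^ 3) := by ring
    rw [e]
    simp

lemma cubic_pos (D : ℕ) (x : ℝ) : cubic (twist (D : ℤ)) x = psM D x := by
  unfold cubic twist WeierstrassCurve.b₂ WeierstrassCurve.b₄ WeierstrassCurve.b₆ psM
  push_cast
  ring

lemma cubic_neg (D : ℕ) (x : ℝ) : cubic (twist (-(D : ℤ))) x = psN D x := by
  unfold cubic twist WeierstrassCurve.b₂ WeierstrassCurve.b₄ WeierstrassCurve.b₆ psN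
  push_cast
  ring

lemma cubic_two (m : ℕ) (x : ℝ) : cubic (twist (-(2 * (m : ℤ)))) x = psC m x := by
  unfold cubic twist WeierstrassCurve.b₂ WeierstrassCurve.b₄ WeierstrassCurve.b₆ psC
  push_cast
  ring

lemma Omega_eq {d : ℤ} {f : ℝ → ℝ} (h : ∀ x, cubic (twist d) x = f x) : Omega (twist d) =
    ∫ x in {x : ℝ | 0 < f x}, 2 / Real.sqrt (f x) := by
  unfold Omega
  simp only [h]
  rw [← integral_const_mul]
  congr 1
  funext x
  ring

lemma mat_eq (D : ℕ) : mat D = mM D := rfl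

lemma bmat_eq (D : ℕ) : bmat D = mC D := by
  refine Matrix.ext fun i j => ?_
  cases i <;> cases j <;> rfl

lemma Cr_odd {d : ℤ} (h : d % 2 ≠ 0) : Cr0 d ↔ (mM d.natAbs).det ≠ 0 := by
  unfold Cr0
  rw [if_neg h, mat_eq]
  exact Iff.rfl

lemma Cr_even (m : ℕ) : Cr0 (-(2 * (m : ℤ))) ↔ (mC (2 * m)).det ≠ 0 := by
  have e : (-(2 * (m : ℤ))).natAbs = 2 * m := by omega
  unfold Cr0
  rw [if_pos (by omega), e, bmat_eq]
  exact Iff.rfl

lemma sign_cases (d : ℤ) : d = (d.natAbs : ℤ) ∨ d = -(d.natAbs : ℤ) := Int.natAbs_eq d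

/-- what is to be proved for one curve -/
def Raw0 (d : ℤ) : Prop :=
    (∀ v : HeightOneSpectrum (𝓞 ℚ), MinimalAt (E d) v) ∧
    (∃ t : ℕ, Odd t ∧ torsOrder (E d) = 2 * t) ∧
    Tam (E d) = (if d % 8 = 1 then 6 else if d % 2 = 0 then 4 else 2) *
      2 ^ Fintype.card (primes d.natAbs) ∧
    (Cr0 d → Finite (E d).toAffine.Point ∧
      ∀ (n : ℕ) (x : Sha (E d)), 2 ^ n • x = 0 → x = 0) ∧
    (Finite (E d).toAffine.Point → (∀ x : Sha (E d), x + x = 0 → x = 0) → Cr0 d) ∧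
    ∃ Λ : ℂ → ℂ, Differentiable ℂ Λ ∧
      (∀ s : ℂ, 2 < s.re → Λ s = (E d).LSeries s) ∧
      ∀ (Γ : Type) [LinearOrderedCommGroupWithZero Γ] (v : Valuation ℂ Γ), v 2 < 1 →
        v (anOrder d (Λ 1)) ≤ 1 ∧ (v (anOrder d (Λ 1)) = 1 ↔ Cr0 d)

theorem raw_odd {d : ℤ} (h : Adm0 d) (h2 : d % 2 ≠ 0) : Raw0 d := by
  classical
  unfold Raw0
  rw [Cr_odd h2]
  have hA := adm_odd h h2
  have h1 := h.1
  have hs := sign_cases d
  generalize d.natAbs = D at hA h1 hs ⊢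
  obtain ⟨ϖ, hd⟩ := Pool.Agent.L0h86.F3.adm_exists_dt hA
  have hD := Pool.Agent.L0h86.F3.adm_prod hA
  have hcr : Pool.Agent.L0h86.F3.Cr4 (M2 D) (M1 D) ϖ ↔ (mM D).det ≠ 0 := cr_iff hd hD hA.m4
  have hm4 := hA.m4
  simp only [← hcr]
  rcases hs with rfl | rfl
  · obtain ⟨c1, c2, c3, c4, Λ, g1, g2, g3⟩ := coreM hA (by omega) hd
    have han : ∀ l : ℂ, anOrder (D : ℤ) l = quoM D l := by
      intro l
      unfold anOrder torsOrder
      rw [E_pos, Omega_eq (cubic_pos D)]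
      rfl
    have hTam : Tam (WM ℚ D) = (if (D : ℤ) % 8 = 1 then 6 else if (D : ℤ) % 2 = 0 then 4 else 2) *
        2 ^ Fintype.card (primes D) := by
      have h5 : Tam (WM ℚ D) = ∏ᶠ v, Pool.Agent.Y698.tam (WM ℚ D) v := rfl
      have h6 : ((D : ℤ) % 8 = 1) ↔ D % 8 = 1 := by omega
      rw [h5, c3, if_neg (c := (D : ℤ) % 2 = 0) (by omega)]
      simp only [h6]
      have h7 := Pool.Agent.L0h86.F3.card_pset hA
      rw [show Fintype.card (primes D) = (M2 D).card + 2 * (M1 D).card from h7.symm]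
      split_ifs <;> rfl
    simp only [han]
    rw [E_pos]
    refine ⟨c1, ?_, hTam, c4, fun hf hsh => ?_, Λ, g1, g2, fun Γ _ v hv => g3 Γ v hv⟩
    · obtain ⟨t, ht, h8⟩ := c2
      exact ⟨t, ht, h8⟩
    · by_contra hns
      obtain ⟨x, hx0, hx2⟩ := Pool.Agent.L0h4.T3.convM hd hD hA.m4 hns hf
      exact hx0 (hsh x hx2)
  · obtain ⟨c1, c2, c3, c4, Λ, g1, g2, g3⟩ := coreN hA (by omega) hd
    have han : ∀ l : ℂ, anOrder (-(D : ℤ)) l = quoN D l := by
      intro l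
      unfold anOrder torsOrder
      rw [E_neg, Omega_eq (cubic_neg D)]
      rfl
    have hTam : Tam (WN ℚ D) = (if (-(D : ℤ)) % 8 = 1 then 6 else
        if (-(D : ℤ)) % 2 = 0 then 4 else 2) * 2 ^ Fintype.card (primes D) := by
      have h5 : Tam (WN ℚ D) = ∏ᶠ v, Pool.Agent.Y698.tam (WN ℚ D) v := rfl
      rw [h5, c3, if_neg (by omega), if_neg (by omega)]
      have h7 := Pool.Agent.L0h86.F3.card_pset hA
      rw [show Fintype.card (primes D) = (M2 D).card + 2 * (M1 D).card from h7.symm]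
    simp only [han]
    rw [E_neg]
    refine ⟨c1, ?_, hTam, c4, fun hf hsh => ?_, Λ, g1, g2, fun Γ _ v hv => g3 Γ v hv⟩
    · obtain ⟨t, ht, h8⟩ := c2
      exact ⟨t, ht, h8⟩
    · by_contra hns
      obtain ⟨x, hx0, hx2⟩ := Pool.Agent.L0h61.T4.convN hd hD hA.m4 hns hf
      exact hx0 (hsh x hx2)

theorem card_two {m : ℕ} (h : AdmC m) :
    (M2 m).card + 2 * (M1 m).card = Fintype.card (pset (2 * m)) := by
  classical
  obtain ⟨ϖ, hd⟩ := admC_exists_dt h
  rw [← Fintype.card_congr (Pool.Agent.L0h4.T5.eiC hd (admC_prod h)), Fintype.card_coe,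
    Pool.Agent.Y698.SG.card_ix (Pool.Agent.L0h86.F3.disM m)]

theorem raw_even {m : ℕ} (h1 : 1 < m) (h : AdmC m) : Raw0 (-(2 * (m : ℤ))) := by
  classical
  unfold Raw0
  rw [Cr_even m]
  obtain ⟨c1, c2, c3, c4, c5, Λ, g1, g2, g3⟩ := coreC h (by omega)
  have han : ∀ l : ℂ, anOrder (-(2 * (m : ℤ))) l = quoC m l := by
    intro l
    unfold anOrder torsOrder
    rw [E_two, Omega_eq (cubic_two m)]
    rfl
  have e : (-(2 * (m : ℤ))).natAbs = 2 * m := by omega
  have hTam : Tam (WC ℚ m) = (if (-(2 * (m : ℤ))) % 8 = 1 then 6 else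
      if (-(2 * (m : ℤ))) % 2 = 0 then 4 else 2) *
        2 ^ Fintype.card (primes (-(2 * (m : ℤ))).natAbs) := by
    have h5 : Tam (WC ℚ m) = ∏ᶠ v, Pool.Agent.Y698.tam (WC ℚ m) v := rfl
    rw [h5, c3, if_neg (by omega), if_pos (by omega), e]
    have h7 := card_two h
    rw [show Fintype.card (primes (2 * m)) = (M2 m).card + 2 * (M1 m).card from h7.symm]
  simp only [han]
  rw [E_two]
  refine ⟨c1, ?_, hTam, c4, fun hf hsh => ?_, Λ, g1, g2, fun Γ _ v hv => g3 Γ v hv⟩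
  · obtain ⟨t, ht, h8⟩ := c2
    exact ⟨t, ht, h8⟩
  · by_contra hns
    obtain ⟨x, hx0, hx2⟩ := c5 (not_not.2 hns) hf
    exact hx0 (hsh x hx2)

theorem raw0 {d : ℤ} (h : Adm0 d) : Raw0 d := by
  by_cases h2 : d % 2 = 0
  · obtain ⟨m, rfl, h3, h4⟩ := adm_even h h2
    exact raw_even h3 h4
  · exact raw_odd h h2

/-! ### the isogeny of degree three -/

lemma red_of {d : ℤ} (h : ¬ (3 : ℤ) ∣ d) : red d = d := if_neg h

lemma red_three (e : ℤ) : red (-3 * e) = e := by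
  unfold red
  rw [if_pos ⟨-e, by ring⟩]
  omega

lemma adm0_n3 {d : ℤ} (h : Adm0 d) : ¬ (3 : ℤ) ∣ d := by
  intro h3
  apply h.2.2.1
  omega

lemma adm0_adm {d : ℤ} (h : Adm0 d) : Adm d := by
  have h3 := red_of (adm0_n3 h)
  refine ⟨Int.squarefree_natAbs.1 h.2.1, ?_, ?_⟩
  · unfold Sign
    rw [h3]
    exact h.2.2.2
  · rw [h3]
    exact h.1

lemma adm0_three {e : ℤ} (h : Adm0 e) : Adm (-3 * e) := by
  refine ⟨?_, ?_, ?_⟩
  · have e1 : (-3 * e).natAbs = 3 * e.natAbs := by omega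
    rw [← Int.squarefree_natAbs, e1, Nat.squarefree_mul
      ((Nat.Prime.coprime_iff_not_dvd Nat.prime_three).2 h.2.2.1)]
    exact ⟨Nat.prime_three.squarefree, h.2.1⟩
  · unfold Sign
    rw [red_three]
    exact h.2.2.2
  · rw [red_three]
    exact h.1

lemma adm_iff_of {d : ℤ} (h : ¬ (3 : ℤ) ∣ d) : Adm d ↔ Adm0 d := by
  refine ⟨fun h1 => ?_, adm0_adm⟩
  obtain ⟨h2, h4, h3⟩ := h1
  unfold Sign at h4
  rw [red_of h] at h3 h4
  exact ⟨h3, Int.squarefree_natAbs.2 h2, fun h5 => h (by omega), h4⟩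

lemma adm_iff_three (e : ℤ) : Adm (-3 * e) ↔ Adm0 e := by
  refine ⟨fun h1 => ?_, adm0_three⟩
  obtain ⟨h2, h4, h3⟩ := h1
  unfold Sign at h4
  rw [red_three] at h3 h4
  refine ⟨h3, Int.squarefree_natAbs.2 (h2.squarefree_of_dvd (Dvd.intro_left _ rfl)), fun h5 => ?_, h4⟩
  obtain ⟨k, hk⟩ : (3 : ℤ) ∣ e := by omega
  have h6 := h2 3 ⟨-k, by rw [hk]; ring⟩
  exact absurd (Int.isUnit_iff_natAbs_eq.1 h6) (by norm_num)

lemma adm_cases {d : ℤ} (h : Adm d) : Adm0 d ∨ ∃ e, Adm0 e ∧ d = -3 * e := by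
  by_cases h3 : (3 : ℤ) ∣ d
  · obtain ⟨k, rfl⟩ := h3
    right
    refine ⟨-k, (adm_iff_three (-k)).1 ?_, by ring⟩
    have e : -3 * -k = 3 * k := by ring
    rw [e]
    exact h
  · exact Or.inl ((adm_iff_of h3).1 h)

lemma Cr_of {d : ℤ} (h : ¬ (3 : ℤ) ∣ d) : Cr d ↔ Cr0 d := by
  unfold Cr Cr0
  rw [red_of h]

lemma Cr_three (e : ℤ) : Cr (-3 * e) ↔ Cr0 e := by
  unfold Cr Cr0
  rw [red_three]
  have : (-3 * e) % 2 = 0 ↔ e % 2 = 0 := by omega
  simp only [this]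

/-- what is to be proved for one curve -/
def Raw (d : ℤ) : Prop :=
    (∀ v : HeightOneSpectrum (𝓞 ℚ), MinimalAt (E d) v) ∧
    (∃ t : ℕ, Odd t ∧ torsOrder (E d) = 2 * t) ∧
    Tam (E d) = (if d % 8 = 1 then 6 else if d % 2 = 0 then 4 else 2) *
      2 ^ Fintype.card (primes (red d).natAbs) ∧
    (Cr d → Finite (E d).toAffine.Point ∧
      ∀ (n : ℕ) (x : Sha (E d)), 2 ^ n • x = 0 → x = 0) ∧
    (Finite (E d).toAffine.Point → (∀ x : Sha (E d), x + x = 0 → x = 0) → Cr d) ∧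
    ∃ Λ : ℂ → ℂ, Differentiable ℂ Λ ∧
      (∀ s : ℂ, 2 < s.re → Λ s = (E d).LSeries s) ∧
      ∀ (Γ : Type) [LinearOrderedCommGroupWithZero Γ] (v : Valuation ℂ Γ), v 2 < 1 →
        v (anOrder d (Λ 1)) ≤ 1 ∧ (v (anOrder d (Λ 1)) = 1 ↔ Cr d)

lemma raw_of {d : ℤ} (h : ¬ (3 : ℤ) ∣ d) (hR : Raw0 d) : Raw d := by
  unfold Raw
  rw [red_of h, Cr_of h]
  exact hR

lemma E_CB (d : ℤ) : E d = Pool.Agent.L0h75.IS.CB ℚ (d ^ 3) := by
  unfold E twist Pool.Agent.L0h75.IS.CB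
  ext
  · simp
  · simp
  · simp
  · simp
  · rfl

lemma Omega_perZ (d : ℤ) : Omega (twist d) = Pool.Agent.L0h4.T6.perZ d := by
  refine Omega_eq (f := fun x => 4 * x ^ 3 + 4 * (d : ℝ) ^ 3) fun x => ?_
  unfold cubic twist WeierstrassCurve.b₂ WeierstrassCurve.b₄ WeierstrassCurve.b₆
  push_cast
  ring

/-- the local data of the curve -/
def Loc (d : ℤ) : Prop :=
    (∀ v : HeightOneSpectrum (𝓞 ℚ), MinimalAt (E d) v) ∧
    (∃ t : ℕ, Odd t ∧ torsOrder (E d) = 2 * t) ∧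
    Tam (E d) = (if d % 8 = 1 then 6 else if d % 2 = 0 then 4 else 2) *
      2 ^ Fintype.card (primes (red d).natAbs)

section
variable {Γ : Type} [LinearOrderedCommGroupWithZero Γ] {v : Valuation ℂ Γ}

lemma v_tam {d : ℤ} (t2 : v 2 < 1) (h : Loc d) :
    v ((Tam (E d) : ℕ) : ℂ) = v ((if d % 2 = 0 then 4 else 2 : ℕ) : ℂ) *
      v 2 ^ Fintype.card (primes (red d).natAbs) := by
  have h3 : v 3 = 1 := Pool.Agent.L0h86.F3.v_three t2
  rw [h.2.2]
  push_cast
  rw [map_mul, map_pow]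
  congr 1
  by_cases h8 : d % 8 = 1
  · rw [if_pos h8, if_neg (by omega)]
    have e : (6 : ℂ) = 3 * 2 := by norm_num
    rw [e, map_mul, h3, one_mul]
  · rw [if_neg h8]

/-- the valuations of the two predicted orders are equal -/
lemma v_an {e : ℤ} (he : e ≠ 0) (t2 : v 2 < 1) (h0 : Loc e) (h1 : Loc (-3 * e))
    (h3 : ¬ (3 : ℤ) ∣ e) (l : ℂ) : v (anOrder (-3 * e) l) = v (anOrder e l) := by
  have v3 : v 3 = 1 := Pool.Agent.L0h86.F3.v_three t2
  have ho : ∀ t : ℕ, Odd t → v (t : ℂ) = 1 := fun t ht => by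
    have := Pool.Agent.Y698.v_oddI v t2 (m := (t : ℤ)) (by exact_mod_cast ht)
    push_cast at this
    exact this
  have ht : v ((torsOrder (E (-3 * e)) : ℕ) : ℂ) = v ((torsOrder (E e) : ℕ) : ℂ) := by
    obtain ⟨a, ha, ha2⟩ := h0.2.1
    obtain ⟨b, hb, hb2⟩ := h1.2.1
    rw [ha2, hb2]
    push_cast
    rw [map_mul, map_mul, ho _ ha, ho _ hb]
  have hO : v ((Omega (twist (-3 * e)) : ℝ) : ℂ) = v ((Omega (twist e) : ℝ) : ℂ) := by
    rw [Omega_perZ, Omega_perZ]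
    rcases Pool.Agent.L0h4.T6.perZ_three he with h | h
    · rw [h]
    · rw [← h]
      push_cast
      rw [map_mul, v3, one_mul]
  have hT : v ((Tam (E (-3 * e)) : ℕ) : ℂ) = v ((Tam (E e) : ℕ) : ℂ) := by
    rw [v_tam t2 h1, v_tam t2 h0, red_three, red_of h3]
    have : (-3 * e) % 2 = 0 ↔ e % 2 = 0 := by omega
    simp only [this]
  unfold anOrder
  rw [map_div₀, map_div₀, map_mul, map_mul, map_mul, map_mul, map_pow, map_pow, ht, hO, hT]

end

lemma raw_three {e : ℤ} (h : Adm0 e) (hR : Raw0 e) (hL : Loc (-3 * e)) : Raw (-3 * e) := by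
  have he : e ≠ 0 := by
    have := h.1
    omega
  have h3 := adm0_n3 h
  have hR' := raw_of h3 hR
  have hL0 : Loc e := ⟨hR'.1, hR'.2.1, hR'.2.2.1⟩
  obtain ⟨-, -, -, c4, c5, Λ, g1, g2, g3⟩ := hR
  refine ⟨hL.1, hL.2.1, hL.2.2, fun hC => ?_, fun hf hs => ?_, Λ, g1, fun s hs => ?_,
    fun Γ _ v hv => ?_⟩
  · obtain ⟨k1, k2⟩ := c4 ((Cr_three e).1 hC)
    rw [E_CB] at k1 k2 ⊢
    exact ⟨(Pool.Agent.L0h4.T6.fin_three he).2 k1, fun n =>
      (Pool.Agent.L0h4.T6.sha_iff he n).2 (k2 n)⟩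
  · rw [Cr_three]
    rw [E_CB] at hf hs c5
    refine c5 ((Pool.Agent.L0h4.T6.fin_three he).1 hf) fun x hx => ?_
    refine (Pool.Agent.L0h4.T6.sha_iff he 1).1 (fun y hy => hs y ?_) x ?_
    · rw [pow_one, two_nsmul] at hy
      exact hy
    · rw [pow_one, two_nsmul]
      exact hx
  · rw [g2 s hs, E_CB, E_CB, Pool.Agent.L0h75.IS.lser_twist (Int.squarefree_natAbs.1 h.2.1)]
  · rw [v_an he hv hL0 hL h3, Cr_three]
    exact g3 Γ v hv

/-- the local data of all the curves -/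
theorem loc_of {n : ℤ} (hn : Squarefree n) {D : ℕ} (hD0 : D ≠ 0) (hD2 : D % 2 = 1)
    (hD3 : ¬ 3 ∣ D) (hD : ∀ p : ℕ, p.Prime → p ≠ 2 → p ≠ 3 → ((p : ℤ) ∣ n ↔ p ∣ D))
    (hc : (M2 D).card + 2 * (M1 D).card = Fintype.card (primes (red n).natAbs)) : Loc n := by
  unfold Loc
  rw [E_CB]
  refine ⟨fun v => Pool.Agent.L0h4.T6.minimal_CB v hn, ?_, ?_⟩
  · obtain ⟨t, ht, h8⟩ := Pool.Agent.L0h4.T6.tnum_CB hn.ne_zero
    exact ⟨t, ht, h8⟩
  · rw [← hc]
    exact Pool.Agent.L0h4.T6.prodtam_CB hn hD0 hD2 hD3 hD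

lemma dvd_three {p : ℕ} (hp : p.Prime) (h3 : p ≠ 3) (e : ℤ) : (p : ℤ) ∣ -3 * e ↔ p ∣ e.natAbs := by
  have hpi : Prime (p : ℤ) := Nat.prime_iff_prime_int.1 hp
  rw [← Int.natCast_dvd]
  refine ⟨fun h => ?_, fun h => h.mul_left _⟩
  rcases hpi.dvd_or_dvd h with h1 | h1
  · exfalso
    have h2 : (p : ℤ) ∣ ((3 : ℕ) : ℤ) := by
      rw [Int.neg_eq_neg_one_mul] at h1
      simpa using h1
    exact h3 ((Nat.prime_dvd_prime_iff_eq hp Nat.prime_three).1 (by exact_mod_cast h2))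
  · exact h1

theorem loc_three {e : ℤ} (h : Adm0 e) : Loc (-3 * e) := by
  have hn := (adm0_three h).1
  have hr : red (-3 * e) = e := red_three e
  by_cases h2 : e % 2 = 0
  · obtain ⟨m, rfl, h3, h4⟩ := adm_even h h2
    have e1 : (-(2 * (m : ℤ))).natAbs = 2 * m := by omega
    refine loc_of hn (D := m) (by omega) h4.m2 h4.n3 (fun p hp hp2 hp3 => ?_) ?_
    · rw [dvd_three hp hp3, e1, hp.dvd_mul]
      refine ⟨fun h5 => ?_, fun h5 => Or.inr h5⟩
      rcases h5 with h5 | h5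
      · exact absurd ((Nat.prime_dvd_prime_iff_eq hp Nat.prime_two).1 h5) hp2
      · exact h5
    · rw [hr, e1]
      exact card_two h4
  · have hA := adm_odd h h2
    have h5 := hA.m4
    refine loc_of hn (D := e.natAbs) (by omega) (by omega) hA.n3
      (fun p hp _ hp3 => dvd_three hp hp3 e) ?_
    rw [hr]
    exact Pool.Agent.L0h86.F3.card_pset hA

theorem raw {d : ℤ} (h : Adm d) : Raw d := by
  rcases adm_cases h with h1 | ⟨e, h1, rfl⟩
  · exact raw_of (adm0_n3 h1) (raw0 h1)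
  · exact raw_three h1 (raw0 h1) (loc_three h1)

theorem core {d : ℤ} (h : Adm d) :
    (∀ v : HeightOneSpectrum (𝓞 ℚ), MinimalAt (E d) v) ∧
    (∃ t : ℕ, Odd t ∧ torsOrder (E d) = 2 * t) ∧
    Tam (E d) = (if d % 8 = 1 then 6 else if d % 2 = 0 then 4 else 2) *
      2 ^ Fintype.card (primes (red d).natAbs) ∧
    ((Finite (E d).toAffine.Point ∧ ∀ x : Sha (E d), x + x = 0 → x = 0) ↔ Cr d) ∧
    (Cr d → ∀ (n : ℕ) (x : Sha (E d)), 2 ^ n • x = 0 → x = 0) ∧
    ∃ Λ : ℂ → ℂ, Differentiable ℂ Λ ∧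
      (∀ s : ℂ, 2 < s.re → Λ s = (E d).LSeries s) ∧
      (∃ m : ℤ, Odd m ∧ _root_.IsIntegral ℤ (m * anOrder d (Λ 1))) ∧
      (∀ (Γ : Type) [LinearOrderedCommGroupWithZero Γ] (v : Valuation ℂ Γ), v 2 < 1 →
        v (anOrder d (Λ 1)) ≤ 1 ∧ (v (anOrder d (Λ 1)) = 1 ↔ Cr d)) ∧
      (Cr d → Λ 1 ≠ 0 ∧
        ∃ m : ℤ, Odd m ∧ _root_.IsIntegral ℤ (m * anOrder d (Λ 1)) ∧
        _root_.IsIntegral ℤ (m * (anOrder d (Λ 1))⁻¹)) := by
  obtain ⟨c1, c2, c3, c4, c5, Λ, g1, g2, g3⟩ := raw h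
  refine ⟨c1, c2, c3, ⟨fun h4 => c5 h4.1 h4.2, fun h4 => ⟨(c4 h4).1, fun x hx =>
      (c4 h4).2 1 x (by rw [pow_one, two_nsmul]; exact hx)⟩⟩, fun h4 => (c4 h4).2, Λ, g1, g2, ?_,
    fun Γ _ v hv => g3 Γ v hv, ?_⟩
  · exact Pool.Agent.Y698.int_of_val fun Γ _ v hv => (g3 Γ v hv).1
  · intro hC
    have hz : ∀ (Γ : Type) [LinearOrderedCommGroupWithZero Γ] (v : Valuation ℂ Γ), v 2 < 1 →
        v (anOrder d (Λ 1)) = 1 := fun Γ _ v hv => ((g3 Γ v hv).2).2 hC
    refine ⟨?_, ?_⟩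
    · intro h0
      refine Pool.Agent.Y698.SG.exists_val2 fun Γ _ v hv => ?_
      have h5 := hz Γ v hv
      rw [h0] at h5
      unfold anOrder at h5
      rw [zero_mul, zero_div, map_zero] at h5
      exact zero_ne_one h5
    · obtain ⟨m₁, hm₁, i₁⟩ := Pool.Agent.Y698.int_of_val
        (x := anOrder d (Λ 1)) fun Γ _ v hv => (hz Γ v hv).le
      obtain ⟨m₂, hm₂, i₂⟩ := Pool.Agent.Y698.int_of_val
        (x := (anOrder d (Λ 1))⁻¹) fun Γ _ v hv => by
          rw [map_inv₀, hz Γ v hv, inv_one]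
      refine ⟨m₁ * m₂, hm₁.mul hm₂, ?_, ?_⟩
      · have e : ((m₁ * m₂ : ℤ) : ℂ) * anOrder d (Λ 1) =
            (m₂ : ℂ) * ((m₁ : ℂ) * anOrder d (Λ 1)) := by
          push_cast; ring
        rw [e]
        exact IsIntegral.mul (isIntegral_algebraMap (R := ℤ) (A := ℂ) (x := m₂)) i₁
      · have e : ((m₁ * m₂ : ℤ) : ℂ) * (anOrder d (Λ 1))⁻¹ =
            (m₁ : ℂ) * ((m₂ : ℂ) * (anOrder d (Λ 1))⁻¹) := by
          push_cast; ring
        rw [e]
        exact IsIntegral.mul (isIntegral_algebraMap (R := ℤ) (A := ℂ) (x := m₁)) i₂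

/-- the 2-part of the conjecture holds exactly in the nonsingular case -/
theorem two_iff {d : ℤ} (h : Adm d) : TwoPart d ↔ Cr d := by
  obtain ⟨-, -, -, h4, h5, Λ, h6, h7, -, -, h8⟩ := core h
  constructor
  · rintro ⟨hf, hs, -⟩
    exact h4.1 ⟨hf, fun x hx => hs 1 x (by rw [pow_one, two_nsmul]; exact hx)⟩
  · intro hd
    obtain ⟨h9, h10⟩ := h8 hd
    exact ⟨(h4.2 hd).1, h5 hd, Λ, h6, h7, h9, h10⟩

/-- the criterion, in the form used for the proportions -/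
lemma Cr_E3 (d : ℤ) : Cr d ↔ Pool.Agent.L0h74.E3.Cr (red d).natAbs := by
  have key : d % 2 = 0 ↔ (red d).natAbs % 2 = 0 := by
    unfold red
    split_ifs with h
    · omega
    · omega
  unfold Cr
  by_cases h : d % 2 = 0
  · rw [if_pos h, Pool.Agent.L0h74.E3.cr_even (key.1 h), bmat_eq]
    exact Iff.rfl
  · rw [if_neg h, Pool.Agent.L0h74.E3.cr_odd (by omega), mat_eq]
    exact Iff.rfl

open Classical in
theorem density {S : Finset ℕ} (hS : ∀ p ∈ S, p.Prime) (inf : Prop) {d₀ : ℤ}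
    (hd₀ : Squarefree d₀) (h₀ : Sign d₀) :
    Filter.Tendsto (fun X : ℕ =>
        (((Finset.Icc (-(X : ℤ)) X).filter fun d =>
          Squarefree d ∧ Sign d ∧ Near S inf d₀ d ∧ TwoPart d).card : ℝ) /
        (((Finset.Icc (-(X : ℤ)) X).filter fun d =>
          Squarefree d ∧ Sign d ∧ Near S inf d₀ d).card : ℝ)) Filter.atTop
      (nhds ((∏' i : ℕ, (1 - (1 / 2 : ℝ) ^ (2 * i + 1))) / 2)) := by
  have key := Pool.Agent.L0h4.T6.law36_abs hS inf hd₀ h₀ (Ex := Finset.Icc (-6) 6) (P := TwoPart)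
    (fun e he hs hne => by
      have hA : Adm e := by
        refine ⟨he, hs, ?_⟩
        rw [Finset.mem_Icc] at hne
        unfold red
        split_ifs with h
        · omega
        · omega
      rw [two_iff hA]
      exact Cr_E3 e)
  simp only [Pool.Agent.L0h4.T6.cntZ_eq]
  refine key.congr fun X => ?_
  have e1 : (fun e => Squarefree e ∧ ((Pool.Agent.L0h4.T6.Sg e ∧
      Pool.Agent.L0h4.T6.Nr S inf d₀ e) ∧ TwoPart e)) =
      fun d => Squarefree d ∧ Sign d ∧ Near S inf d₀ d ∧ TwoPart d := by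
    funext e
    exact propext (and_congr_right fun _ => and_assoc)
  rw [e1]
  rfl

end proof

open Classical in
/-- **The 2-part of the conjecture of Birch and Swinnerton-Dyer for the curves `y² = x³ + d³`, the
quadratic twists of `X_0(36)` with root number `+1`.** -/
theorem result :
    (∀ d : ℤ, Adm d →
      (∀ v : HeightOneSpectrum (𝓞 ℚ), MinimalAt (E d) v) ∧
      (∃ t : ℕ, Odd t ∧ torsOrder (E d) = 2 * t) ∧
      Tam (E d) = (if d % 8 = 1 then 6 else if d % 2 = 0 then 4 else 2) *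
        2 ^ Fintype.card (primes (red d).natAbs) ∧
      ((Finite (E d).toAffine.Point ∧ ∀ x : Sha (E d), x + x = 0 → x = 0) ↔ Cr d) ∧
      (TwoPart d ↔ Cr d) ∧
      ∃ Λ : ℂ → ℂ, Differentiable ℂ Λ ∧
        (∀ s : ℂ, 2 < s.re → Λ s = (E d).LSeries s) ∧
        (∃ m : ℤ, Odd m ∧ _root_.IsIntegral ℤ (m * anOrder d (Λ 1))) ∧
        ∀ (Γ : Type) [LinearOrderedCommGroupWithZero Γ] (v : Valuation ℂ Γ), v 2 < 1 →
          v (anOrder d (Λ 1)) ≤ 1 ∧ (v (anOrder d (Λ 1)) = 1 ↔ Cr d)) ∧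
    ∀ (S : Finset ℕ) (inf : Prop) (d₀ : ℤ), (∀ p ∈ S, p.Prime) → Squarefree d₀ → Sign d₀ →
      Filter.Tendsto (fun X : ℕ =>
        (((Finset.Icc (-(X : ℤ)) X).filter fun d =>
          Squarefree d ∧ Sign d ∧ Near S inf d₀ d ∧ TwoPart d).card : ℝ) /
        (((Finset.Icc (-(X : ℤ)) X).filter fun d =>
          Squarefree d ∧ Sign d ∧ Near S inf d₀ d).card : ℝ)) Filter.atTop
        (nhds ((∏' i : ℕ, (1 - (1 / 2 : ℝ) ^ (2 * i + 1))) / 2)) := by
  refine ⟨fun d h => ?_, fun S inf d₀ hS hd₀ h₀ => ?_⟩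
  · obtain ⟨h1, h2, h3, h4, -, Λ, h6, h7, h8, h9, -⟩ := core h
    exact ⟨h1, h2, h3, h4, two_iff h, Λ, h6, h7, h8, h9⟩
  · exact density hS inf hd₀ h₀

end Pool.Agent.Results.MP_4a9ea6_nt.TwoPartEveryTwist36
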