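import Pool.Agent.L0h1.CM.T49
import Pool.Agent.L0h1.EV.Crm
import Pool.Agent.L0h4.T7.Law7
import Pool.Agent.L0h4.T7.LocB
import Pool.Agent.L0h4.T7.Ls7
import Pool.Agent.L0h4.T7.Per7
import Pool.Agent.L0h4.TA.Dens
import Pool.Agent.L0h61.EV.Core
import Pool.Agent.L0h75.EV.UniE
import Pool.Agent.L0h75.IS.Sha7
import Pool.Agent.R428.Q0.Cls

/-!
# The 2-part of the strong Birch and Swinnerton-Dyer conjecture over `ℚ` for all the quadratic twists
# of `X_0(49)` with root number `+1`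

`d` is any squarefree integer such that the root number of the quadratic twist `E_d` by `d` of
`X_0(49) : y² + x y = x³ - x² - 2 x - 1` is `+1`: `d > 0` if `7 ∤ d`, and `d < 0` if `7 ∣ d`. Let `D = d` in
the first case and `D = -d / 7` in the second (`E_{-7D}` is 7-isogenous to `E_D`), so `D ≥ 1` is
squarefree and prime to `7`. There are no other conditions on `d`. `E_d` is the curve
`y² + x y = x³ - (3 d + 1) / 4 x² - 2 d² x - d³` if `d ≡ 1 mod 4`, and `y² = x³ - 35 d² x - 98 d³` if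
`d ≡ 2, 3 mod 4`.
Let `z = #E_d(ℚ)_tors² L(E_d, 1) / (Ω ∏ c_p)`, which is zero or the order of `Ш(E_d/ℚ)` according to
the conjecture. The theorem says, with no hypothesis on the rank or on `Ш`:
* `L(E_d, s)` is entire, the equation of `E_d` is minimal, the order of the torsion subgroup is twice
  an odd number, and `∏ c_p` is `2 ^ (1 + t)` if `d ≡ 1 mod 4` and `2 ^ (3 + t)` if not, `t` the number of
  the prime ideals of `K = ℚ(√-7)` which divide `D` and do not divide `2`;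
* `z` is an algebraic number which is integral at all the primes above two;
* `z` is a unit at one prime above two iff it is so at all of them iff `E_d(ℚ)` is finite and
  `Ш(E_d/ℚ)` has no element of order two iff the square matrix `mat D` over `𝔽₂`, given by the Hilbert
  symbols `(π, D)` at `π'` for the normalised prime elements `π, π'` of `ℤ[α]`, `α = (1 + √-7) / 2`,
  which divide the discriminant of `ℚ(√D)` (without `α` if `D ≡ 3 mod 4`), is not singular;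
* in this case `L(E_d, 1) ≠ 0` and the 2-primary part of `Ш(E_d/ℚ)` is zero;
* let `S` be a finite set of places of `ℚ` and `d₀` squarefree such that the root number of `E_{d₀}` is
  `+1`: among the squarefree `d`, `|d| ≤ X`, such that the root number of `E_d` is `+1` and `d / d₀` is a
  square in `ℚ_v` for all `v ∈ S`, the proportion of the `d` for which this 2-part holds is exactly
  `(1/2) ∏_{i ≥ 0} (1 - 2^{-(2i+1)}) = 0.2097...`, as `X → ∞` (for `S` empty: among all the twists with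
  root number `+1`).

Proof: `Pool/Agent/L0h4/TW`, `Pool/Agent/L0h1/EV`, `Pool/Agent/L0h98/EV`, `Pool/Agent/L0h75/EV` (the value
`L(E_D, 1)` modulo the powers of two: sums of `℘`-functions over division points and an induction over
the sets of prime ideals of `K`, with the normalisation `≡ 1` modulo the square of only one of the two
primes above two), `Pool/Agent/L0h4/TA`, `Pool/Agent/L0h23/EV`, `Pool/Agent/L0h61/EV`,
`Pool/Agent/L0h4/T7` (period, Tamagawa numbers, torsion), `Pool/Agent/L0h4/TD`, `Pool/Agent/L0h23/ED`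
(2-descent over `K`), `Pool/Agent/L0h4/TC`, `Pool/Agent/L0h4/TE` and `Pool/Agent/L0h23/SZ` (a kernel
vector of the matrix gives an everywhere locally soluble 2-covering), `Pool/Agent/L0h98/T7`,
`Pool/Agent/L0h75/IS`, `Pool/Agent/L0h1/CM`, `Pool/Agent/L0h4/T7` (the isogeny of degree seven
`E_D → E_{-7D}`: points, `Ш`, periods, L-series), `Pool/Agent/L0h1/KD`, `Pool/Agent/L0h74` (`KD`, `EV`, `AP`,
`GF`, `E3`: the proportions). Joint work of helpers 1, 4, 23, 61, 74, 75, 98.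
-/

set_option autoImplicit false

open NumberField NumberField.InfinitePlace IsDedekindDomain WeierstrassCurve MeasureTheory

namespace Pool.Agent.Results.MP_4a9ea6_nt.TwoPartEveryTwist49

open Pool.Agent.TH841.NF.D (Sha)
open Pool.Agent.TH841.SH.D (Pt)

/-- The quadratic twist by the squarefree integer `d` of `X_0(49) : y² + x y = x³ - x² - 2 x - 1`, with
integral coefficients. -/
def twist (d : ℤ) : WeierstrassCurve ℤ :=
  if d % 4 = 1 then ⟨1, -((3 * d + 1) / 4), 0, -2 * d ^ 2, -d ^ 3⟩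
  else ⟨0, 0, 0, -35 * d ^ 2, -98 * d ^ 3⟩

/-- The curve over `ℚ`. -/
abbrev E (d : ℤ) : WeierstrassCurve ℚ := (twist d).map (Int.castRingHom ℚ)

/-- The equation is minimal at the place `v`: no change of variables over `ℚ` that keeps the
coefficients integral at `v` decreases the order of the discriminant. -/
def MinimalAt (W : WeierstrassCurve ℚ) (v : HeightOneSpectrum (𝓞 ℚ)) : Prop :=
  ∀ C : VariableChange ℚ, v.valuation ℚ (C • W).a₁ ≤ 1 → v.valuation ℚ (C • W).a₂ ≤ 1 →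
    v.valuation ℚ (C • W).a₃ ≤ 1 → v.valuation ℚ (C • W).a₄ ≤ 1 → v.valuation ℚ (C • W).a₆ ≤ 1 →
    v.valuation ℚ (C • W).Δ ≤ v.valuation ℚ W.Δ

/-- `W⁰(ℚ_v)`, the group of the points of `W` over the completion `ℚ_v` with nonsingular reduction:
the point at infinity and the points `(x, y)` where `x` is not integral, or one of the partial
derivatives of `y² + a₁ x y + a₃ y - x³ - a₂ x² - a₄ x - a₆` is a unit at `(x, y)`.
Here `Pt W ℚ_v` is the group of the points of `W` over `ℚ_v`. -/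
noncomputable def nonsing (W : WeierstrassCurve ℚ) (v : HeightOneSpectrum (𝓞 ℚ)) :
    AddSubgroup (Pt W (v.adicCompletion ℚ)) :=
  AddSubgroup.closure {P | ∀ x y h, P = Affine.Point.some x y h →
    1 < Valued.v x ∨
    Valued.v ((W.baseChange (v.adicCompletion ℚ)).a₁ * y -
      (3 * x ^ 2 + 2 * (W.baseChange (v.adicCompletion ℚ)).a₂ * x +
        (W.baseChange (v.adicCompletion ℚ)).a₄)) = 1 ∨
    Valued.v (2 * y + (W.baseChange (v.adicCompletion ℚ)).a₁ * x +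
      (W.baseChange (v.adicCompletion ℚ)).a₃) = 1}

/-- The Tamagawa number `c_v = [W(ℚ_v) : W⁰(ℚ_v)]` of a minimal equation. -/
noncomputable def c (W : WeierstrassCurve ℚ) (v : HeightOneSpectrum (𝓞 ℚ)) : ℕ :=
  (nonsing W v).index

/-- The product of the Tamagawa numbers. -/
noncomputable def Tam (W : WeierstrassCurve ℚ) : ℕ := ∏ᶠ v : HeightOneSpectrum (𝓞 ℚ), c W v

/-- `4 x³ + b₂ x² + 2 b₄ x + b₆ = (2 y + a₁ x + a₃)²`. -/
def cubic (W : WeierstrassCurve ℤ) (x : ℝ) : ℝ := 4 * x ^ 3 + W.b₂ * x ^ 2 + 2 * W.b₄ * x + W.b₆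

/-- `Ω = ∫_{W(ℝ)} |ω|` with `ω = dx / (2 y + a₁ x + a₃)`, as an integral over `x`: two real points lie
over each `x` with `cubic x > 0`. -/
noncomputable def Omega (W : WeierstrassCurve ℤ) : ℝ :=
  2 * ∫ x in {x : ℝ | 0 < cubic W x}, 1 / √(cubic W x)

open Classical in
/-- The order of the torsion subgroup of `W(K)`. -/
noncomputable def torsOrder {K : Type} [Field K] (W : WeierstrassCurve K) : ℕ :=
  Nat.card (AddCommGroup.torsion W.toAffine.Point)

/-- The order of the Tate-Shafarevich group predicted by the formula, for the value `l` of the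
L-function of `E_d` at `s = 1`: `#E_d(ℚ)_tors² l / (Ω ∏ c_v)`. -/
noncomputable def anOrder (d : ℤ) (l : ℂ) : ℂ :=
  l * (torsOrder (E d) : ℂ) ^ 2 / ((Omega (twist d) : ℝ) * (Tam (E d) : ℂ))

/-- The integer `d`, if it is prime to `7`, and `-d / 7`, if `7 ∣ d` (the twists by `d` and by `-7 d`
are 7-isogenous). -/
def red (d : ℤ) : ℤ := if 7 ∣ d then -(d / 7) else d

/-- `d` is squarefree and the root number of `E_d` is `+1`: `red d` is positive. -/
def Adm (d : ℤ) : Prop := Squarefree d ∧ 0 < red d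

/-- `d / d₀` is a square in `ℚ_p` for all the prime numbers `p` in `S` and, if `inf`, in `ℝ`. -/
def Near (S : Finset ℕ) (inf : Prop) (d₀ d : ℤ) : Prop :=
  (∀ p ∈ S, ∀ _ : Fact p.Prime, IsSquare ((d * d₀ : ℤ) : ℚ_[p])) ∧ (inf → 0 < d * d₀)

open Classical in
/-- The number of the prime ideals of the ring of integers of `ℚ(√-7)` which divide `D` and do not divide
`2`: for each odd prime factor `p` of `D` there are two if `-7` is a square modulo `p`, and one if not. -/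
noncomputable def t (D : ℕ) : ℕ := ∑ p ∈ D.primeFactors.erase 2, if IsSquare (-7 : ZMod p) then 2 else 1

/-- The complex number `(1 + √-7) / 2`. -/
noncomputable def al : ℂ := (1 + Complex.I * (Real.sqrt 7 : ℂ)) / 2

/-- The ring `ℤ[α]`, `α = (1 + √-7) / 2`, of the integers of `K = ℚ(√-7)`, as a subring of `ℂ`: its
elements are the numbers `x + y α`, `x, y ∈ ℤ` (see `mem_O`). -/
noncomputable abbrev O : Subring ℂ := Pool.Agent.Y698.RR

lemma mem_O (z : ℂ) : z ∈ O ↔ ∃ x y : ℤ, z = x + y * al := Pool.Agent.Y698.mem_RR z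

/-- The element `α = (1 + √-7) / 2` of `ℤ[α]`. -/
noncomputable def α : O := ⟨al, (mem_O al).2 ⟨0, 1, by push_cast; ring⟩⟩

/-- The element `√-7 = 2 α - 1` of `ℤ[α]`. -/
noncomputable def rt : O := 2 * α - 1

/-- The generators: for each prime ideal of `ℤ[α]` other than `(α)` which divides `D` its generator
congruent to `1` modulo `α²` (for `D` even this includes the generator `α - 1 = 1 + α²` of the conjugate
of `(α)`); also `α - 1` if `D ≡ 3 mod 4`, and `-α` or `α` if `D ≡ 2` or `6 mod 8`. -/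
def primes (D : ℕ) : Set O := {x | D ≠ 0 ∧ Prime x ∧ ((x ∣ (D : O) ∧ α ^ 2 ∣ x - 1) ∨
  (D % 4 = 3 ∧ x = α - 1) ∨ (D % 8 = 2 ∧ x = -α) ∨ (D % 8 = 6 ∧ x = α))}

noncomputable instance (D : ℕ) : Fintype (primes D) := Pool.Agent.L0h1.EV.inst_gens D

open Classical in
/-- `1` if `x` is not a square modulo `y`, and `0` if it is. -/
noncomputable def nonsq (x y : O) : ZMod 2 := if ∃ z : O, y ∣ x - z ^ 2 then 0 else 1

open Classical in
/-- The Hilbert symbol `(x, D)` at the prime element `y`, for `x` prime to `y` and `y` a prime divisor of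
the discriminant of `ℚ(√D)`: `0` if `x` is congruent to `a² - D b²` modulo `y³` for some `a` and `b`,
and `1` if not. -/
noncomputable def symb (D : ℕ) (x y : O) : ZMod 2 :=
  if ∃ a b : O, y ^ 3 ∣ x - a ^ 2 + D * b ^ 2 then 0 else 1

open Classical in
/-- `0` if `x ≡ 1` modulo `α³`, and `1` if not. -/
noncomputable def eight (x : O) : ZMod 2 := if α ^ 3 ∣ x - 1 then 0 else 1

open Classical in
/-- The matrix over the field with two elements, with rows and columns indexed by the generators: the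
entry at `(x, y)` is `symb D x y` for `x ≠ y`, and the entry at `(x, x)` is the sum of `nonsq x √-7` and
of the `symb D x z` for all the `z ≠ x`; if `D ≡ 3 mod 4`, the product `eight x * symb D (-√-7) y` is
added to the entry at `(x, y)` for all `x` and `y`. -/
noncomputable def mat (D : ℕ) : Matrix (primes D) (primes D) (ZMod 2) := Matrix.of fun x y =>
  (if x = y then nonsq x rt + ∑ z ∈ Finset.univ.erase x, symb D x z else symb D x y) +
    (if D % 4 = 3 then eight x * symb D (-rt) y else 0)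

/-- The 2-part of the conjecture, in the case that `z` is a unit at two: `L(E_d, s)` has an entire
continuation `Λ` with `Λ 1 ≠ 0`, `E_d(ℚ)` is finite, the 2-primary part of `Ш` is zero, and the
predicted order of `Ш` is a unit at all the primes above two. -/
def TwoPart (d : ℤ) : Prop :=
  Finite (E d).toAffine.Point ∧ (∀ (n : ℕ) (x : Sha (E d)), 2 ^ n • x = 0 → x = 0) ∧
    ∃ Λ : ℂ → ℂ, Differentiable ℂ Λ ∧ (∀ s : ℂ, 2 < s.re → Λ s = (E d).LSeries s) ∧ Λ 1 ≠ 0 ∧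
      ∃ m : ℤ, Odd m ∧ _root_.IsIntegral ℤ (m * anOrder d (Λ 1)) ∧
        _root_.IsIntegral ℤ (m * (anOrder d (Λ 1))⁻¹)

section proof

open Pool.Agent.Y698 Pool.Agent.R428.Q0
open Pool.Agent.L0h1.EV (TX mU tt_mU tt_iff TX_one TX_other)
open Pool.Agent.L0h1.CM (S7 S_SHA7 TT2 Ch tt_ch tt7_iff)
open Pool.Agent.L0h4.T7 (CS CA PS PT)

/-- `D` is squarefree and prime to `7`. -/
def Adm0 (D : ℕ) : Prop := Squarefree D ∧ ¬ 7 ∣ D

/-! ### the number of the prime ideals -/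

open Classical in
lemma t_odd {D : ℕ} (h2 : D % 2 = 1) :
    t D = (Pool.Agent.L0h4.TA.QD D).card + 2 * (Pool.Agent.L0h4.TA.PD D).card := by
  unfold t Pool.Agent.L0h4.TA.QD Pool.Agent.L0h4.TA.PD
  rw [Finset.erase_eq_of_notMem]
  · rw [Finset.sum_ite, Finset.sum_const, Finset.sum_const, smul_eq_mul, smul_eq_mul, mul_one]
    ring
  · intro h3
    have := Nat.dvd_of_mem_primeFactors h3
    omega

open Classical in
lemma t_even {M : ℕ} (h2 : M % 2 = 1) : t (2 * M) = t M := by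
  have hM : M ≠ 0 := by omega
  unfold t
  congr 1
  ext p
  rw [Finset.mem_erase, Finset.mem_erase, Nat.mem_primeFactors, Nat.mem_primeFactors]
  refine and_congr_right fun hp => ?_
  constructor
  · rintro ⟨h3, h4, h5⟩
    refine ⟨h3, ?_, hM⟩
    rcases h3.dvd_mul.1 h4 with h6 | h6
    · exact absurd ((Nat.prime_dvd_prime_iff_eq h3 Nat.prime_two).1 h6) hp
    · exact h6
  · rintro ⟨h3, h4, h5⟩
    exact ⟨h3, h4.mul_left 2, by omega⟩

/-! ### the curves -/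

lemma E_one {D j : ℕ} (hj : D = 1 + 4 * j) : E (D : ℤ) = AX ℚ j := by
  have h := twZ_map hj ℚ
  have e : twist (D : ℤ) = ⟨1, -((3 * D + 1) / 4), 0, -2 * D ^ 2, -D ^ 3⟩ := if_pos (by omega)
  unfold E
  rw [e]
  exact h

lemma E_TX (D : ℕ) : E (D : ℤ) = TX D := by
  by_cases h : D % 4 = 1
  · obtain ⟨j, hj⟩ : ∃ j, D = 1 + 4 * j := ⟨D / 4, by omega⟩
    rw [E_one hj, TX_one hj]
  · rw [TX_other h]
    unfold E
    have e : twist (D : ℤ) = ⟨0, 0, 0, -35 * D ^ 2, -98 * D ^ 3⟩ := if_neg (by omega)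
    rw [e]
    unfold Pool.Agent.L0h23.EV.WX
    ext <;> simp

lemma E_other {D : ℕ} (h : D % 4 ≠ 1) : E (D : ℤ) = Pool.Agent.L0h23.EV.WX ℚ D := by
  rw [E_TX, TX_other h]

lemma cubic_one {D j : ℕ} (hj : D = 1 + 4 * j) (x : ℝ) :
    cubic (twist (D : ℤ)) x = psD (1 + 4 * j) x := by
  have h1 : (3 * (D : ℤ) + 1) / 4 = 1 + 3 * j := by
    rw [hj]
    push_cast
    omega
  have e : twist (D : ℤ) = ⟨1, -((3 * D + 1) / 4), 0, -2 * D ^ 2, -D ^ 3⟩ := if_pos (by omega)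
  unfold cubic
  rw [e]
  unfold WeierstrassCurve.b₂ WeierstrassCurve.b₄ WeierstrassCurve.b₆ psD
  simp only
  rw [h1, hj]
  push_cast
  ring

lemma cubic_other {D : ℕ} (h : D % 4 ≠ 1) (x : ℝ) :
    cubic (twist (D : ℤ)) x = Pool.Agent.L0h23.EV.psE D x := by
  have e : twist (D : ℤ) = ⟨0, 0, 0, -35 * D ^ 2, -98 * D ^ 3⟩ := if_neg (by omega)
  unfold cubic
  rw [e]
  unfold WeierstrassCurve.b₂ WeierstrassCurve.b₄ WeierstrassCurve.b₆ Pool.Agent.L0h23.EV.psE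
  simp only
  push_cast
  ring

lemma real_gen {W : WeierstrassCurve ℤ} {f : ℝ → ℝ} (h : ∀ x, cubic W x = f x) : Omega W =
    ∫ x in {x : ℝ | 0 < f x}, 2 / Real.sqrt (f x) := by
  unfold Omega
  simp only [h]
  rw [← integral_const_mul]
  congr 1
  funext x
  ring

lemma nr_rat : nrRealPlaces ℚ = 1 ∧ nrComplexPlaces ℚ = 0 := by
  have h := InfinitePlace.card_add_two_mul_card_eq_rank ℚ
  rw [Module.finrank_self] at h
  omega

lemma mat_eq (D : ℕ) : mat D = mU D := rfl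

/-- the group of the points is finite and there is no element of order two in `Ш` -/
def TT' (d : ℤ) : Prop := Finite (E d).toAffine.Point ∧ ∀ x : Sha (E d), x + x = 0 → x = 0

lemma TT_eq (D : ℕ) : TT' (D : ℤ) ↔ Pool.Agent.L0h1.EV.TT D := by
  unfold TT' Pool.Agent.L0h1.EV.TT
  rw [E_TX]

lemma det_iff0 {D : ℕ} (h : Adm0 D) : TT' (D : ℤ) ↔ (mat D).det ≠ 0 := by
  rw [TT_eq, mat_eq]
  exact tt_mU Pool.Agent.L0h75.EV.t_U1 Pool.Agent.L0h75.EV.t_UE h.1 h.2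

/-- the properties of the quotient -/
def Quo (D : ℕ) (C : Prop) : Prop :=
  (∀ v : HeightOneSpectrum (𝓞 ℚ), MinimalAt (E (D : ℤ)) v) ∧
    (∃ m : ℕ, Odd m ∧ torsOrder (E (D : ℤ)) = 2 * m) ∧
    Tam (E (D : ℤ)) = 2 ^ ((if (D : ℤ) % 4 = 1 then 1 else 3) + t D) ∧
    (C → ∀ (n : ℕ) (x : Sha (E (D : ℤ))), 2 ^ n • x = 0 → x = 0) ∧
    ∃ Λ : ℂ → ℂ, Differentiable ℂ Λ ∧
      (∀ s : ℂ, 2 < s.re → Λ s = (E (D : ℤ)).LSeries s) ∧
      ∀ (Γ : Type) [LinearOrderedCommGroupWithZero Γ] (v : Valuation ℂ Γ), v 2 < 1 →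
        v (anOrder (D : ℤ) (Λ 1)) ≤ 1 ∧ (v (anOrder (D : ℤ) (Λ 1)) = 1 ↔ C)

theorem quo_one {D : ℕ} (h : Adm0 D) (h4 : D % 4 = 1) : Quo D (TT' (D : ℤ)) := by
  classical
  have hA : Pool.Agent.L0h4.TA.Adm D := ⟨h.1, h4, h.2⟩
  obtain ⟨j, hj'⟩ : ∃ j, D = 1 + 4 * j := ⟨D / 4, by omega⟩
  have hE := E_one hj'
  obtain ⟨c1, c2, c3, c4, Λ, h1, h2, h3⟩ := Pool.Agent.L0h4.TA.coreX hA hj'
  have hst : torsOrder (E (D : ℤ)) = Pool.Agent.Y698.SG.tnum (Pool.Agent.Y698.AX ℚ j) := by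
    unfold torsOrder Pool.Agent.Y698.SG.tnum
    rw [hE]
  have han : ∀ l : ℂ, anOrder (D : ℤ) l = Pool.Agent.Y698.SG.quoT ℚ j l := by
    intro l
    unfold anOrder
    rw [hst, hE, real_gen (cubic_one hj')]
    unfold Pool.Agent.Y698.SG.quoT
    have hT : Tam (Pool.Agent.Y698.AX ℚ j) = ∏ᶠ v, Pool.Agent.Y698.tam (Pool.Agent.Y698.AX ℚ j) v := rfl
    rw [hT, Rat.numberField_discr, nr_rat.1, nr_rat.2, pow_one, pow_zero]
    generalize (∏ᶠ v, Pool.Agent.Y698.tam (Pool.Agent.Y698.AX ℚ j) v : ℕ) = t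
    simp
  have hm : (Pool.Agent.L0h4.TA.mD D).det ≠ 0 ↔ TT' (D : ℤ) := by
    rw [det_iff0 h, mat_eq]
    obtain ⟨ϖ, hc⟩ := Pool.Agent.L0h4.TA.exists_choice hA.p
    have hd := hA.dt hc
    exact (Pool.Agent.L0h75.EV.t_U1 _ _ _ hd D hA.prod.symm h4).symm
  refine ⟨?_, ?_, ?_, ?_, Λ, h1, ?_, ?_⟩
  · rw [hE]
    exact c1
  · rw [hst]
    exact c2
  · rw [hE, if_pos (by omega), t_odd (by omega), Pool.Agent.L0h4.TA.card_pset hA]
    exact c3
  · intro h5
    rw [hE]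
    exact (c4 (hm.2 h5)).2
  · intro s hs
    rw [hE]
    exact h2 s hs
  · intro Γ _ v hv
    rw [han, ← hm]
    exact h3 Γ v hv

theorem quo_other {D : ℕ} (h : Adm0 D) (h4 : D % 4 ≠ 1) : Quo D (TT' (D : ℤ)) := by
  classical
  have hD4 : D % 4 ≠ 0 := by
    intro h4
    have h5 : 2 * 2 ∣ D := by omega
    exact absurd (h.1 2 h5) (by rw [Nat.isUnit_iff]; norm_num)
  have hA : Pool.Agent.L0h23.EV.AdmE D := ⟨h.1, by omega, h.2⟩
  obtain ⟨w, hw⟩ := Pool.Agent.L0h4.TA.exists_w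
  have hq := Pool.Agent.L0h74.EV.qpw_of hw
  have hE := E_other h4
  have hc : Pool.Agent.L0h4.TW.Cho w (Pool.Agent.L0h4.TA.PD (Pool.Agent.L0h61.EV.odp D)) := by
    have hodd : Pool.Agent.L0h61.EV.odp D % 2 = 1 := by
      unfold Pool.Agent.L0h61.EV.odp
      split_ifs <;> omega
    have h7 : ¬ 7 ∣ Pool.Agent.L0h61.EV.odp D := by
      unfold Pool.Agent.L0h61.EV.odp
      split_ifs with h5
      · exact fun h6 => h.2 (h6.trans ⟨2, by omega⟩)
      · exact h.2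
    intro p hp
    exact hw p (hq.p _ hodd h7 p hp)
  have hm : Pool.Agent.L0h61.EV.CrE D w ↔ TT' (D : ℤ) := by
    rw [TT_eq, tt_iff hq h.1 h.2]
    unfold Pool.Agent.L0h61.EV.CrE Pool.Agent.L0h74.EV.CritA
    by_cases h5 : D % 4 = 3
    · rw [if_pos h5]
      constructor
      · exact fun h6 => Or.inr (Or.inl ⟨h5, h6⟩)
      · rintro (h6 | h6 | h6)
        · omega
        · exact h6.2
        · omega
    · rw [if_neg h5]
      constructor
      · exact fun h6 => Or.inr (Or.inr ⟨by omega, h6⟩)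
      · rintro (h6 | h6 | h6)
        · omega
        · omega
        · exact h6.2
  obtain ⟨c1, c2, c3, c4, Λ, h1, h2, h3⟩ := Pool.Agent.L0h61.EV.coreA hA hc
  have hst : torsOrder (E (D : ℤ)) = Pool.Agent.Y698.SG.tnum (Pool.Agent.L0h23.EV.WX ℚ D) := by
    unfold torsOrder Pool.Agent.Y698.SG.tnum
    rw [hE]
  have han : ∀ l : ℂ, anOrder (D : ℤ) l = Pool.Agent.L0h61.EV.quoE D l := by
    intro l
    unfold anOrder
    rw [hst, hE, real_gen (cubic_other h4)]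
    rfl
  refine ⟨?_, ?_, ?_, ?_, Λ, h1, ?_, ?_⟩
  · rw [hE]
    exact c1
  · rw [hst]
    exact c2
  · rw [hE, if_neg (by omega)]
    have ht : t D = (Pool.Agent.L0h4.TA.QD (Pool.Agent.L0h61.EV.odp D)).card +
        2 * (Pool.Agent.L0h4.TA.PD (Pool.Agent.L0h61.EV.odp D)).card := by
      unfold Pool.Agent.L0h61.EV.odp
      split_ifs with h5
      · have e : D = 2 * (D / 2) := by omega
        rw [← t_odd (by omega), ← t_even (M := D / 2) (by omega), ← e]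
      · exact t_odd (by omega)
    rw [ht]
    exact c3
  · intro h5
    rw [hE]
    exact (c4 (hm.2 h5)).2
  · intro s hs
    rw [hE]
    exact h2 s hs
  · intro Γ _ v hv
    rw [han, ← hm]
    exact h3 Γ v hv

theorem quo {D : ℕ} (h : Adm0 D) : Quo D (TT' (D : ℤ)) := by
  by_cases h4 : D % 4 = 1
  · exact quo_one h h4
  · exact quo_other h h4

/-! ### all the twists -/

lemma red_of {d : ℤ} (h : ¬ (7 : ℤ) ∣ d) : red d = d := if_neg h

lemma red_seven (e : ℤ) : red (-7 * e) = e := by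
  unfold red
  rw [if_pos ⟨-e, by ring⟩]
  omega

lemma adm_cases {d : ℤ} (h : Adm d) :
    ∃ D : ℕ, Adm0 D ∧ (red d).natAbs = D ∧ (d = (D : ℤ) ∨ d = -7 * (D : ℤ)) := by
  obtain ⟨h1, h2⟩ := h
  have h1' := Int.squarefree_natAbs.2 h1
  by_cases h7 : (7 : ℤ) ∣ d
  · obtain ⟨k, rfl⟩ := h7
    have e : 7 * k = -7 * -k := by ring
    rw [e, red_seven] at h2
    have hk : (7 * k).natAbs = 7 * k.natAbs := by omega
    rw [hk] at h1'
    refine ⟨k.natAbs, ⟨h1'.squarefree_of_dvd (Dvd.intro_left _ rfl), fun h5 => ?_⟩, ?_,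
      Or.inr (by omega)⟩
    · obtain ⟨m, hm⟩ := h5
      have h6 := h1' 7 ⟨m, by rw [hm]; ring⟩
      exact absurd (Nat.isUnit_iff.1 h6) (by norm_num)
    · rw [e, red_seven]
      omega
  · rw [red_of h7] at h2
    exact ⟨d.natAbs, ⟨h1', fun h5 => h7 (by omega)⟩, by rw [red_of h7], Or.inl (by omega)⟩

lemma E_CS {d : ℤ} (h : d % 4 ≠ 1) : E d = CS ℚ d := by
  unfold E
  have e : twist d = ⟨0, 0, 0, -35 * d ^ 2, -98 * d ^ 3⟩ := if_neg h
  rw [e]
  unfold CS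
  ext <;> simp

lemma E_CA {d : ℤ} (h : d % 4 = 1) : E d = CA ℚ ((3 * d + 1) / 4) d := by
  unfold E
  have e : twist d = ⟨1, -((3 * d + 1) / 4), 0, -2 * d ^ 2, -d ^ 3⟩ := if_pos h
  rw [e]
  unfold CA
  ext <;> simp

lemma four_mul {d : ℤ} (h : d % 4 = 1) : 4 * ((3 * d + 1) / 4) = 3 * d + 1 := by omega

lemma t_S7 : S_SHA7 := fun _ hn h x hx => Pool.Agent.L0h75.IS.sha_seven_two hn h x hx

lemma tt_E (d : ℤ) : TT' d ↔ TT2 (S7 d) := by
  have e0 : TT' d ↔ TT2 (E d) := Iff.rfl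
  rw [e0]
  by_cases h : d % 4 = 1
  · have h4 : (4 : ℚ) * (((3 * d + 1) / 4 : ℤ) : ℚ) = 3 * (d : ℚ) + 1 := by
      exact_mod_cast congrArg (Int.cast : ℤ → ℚ) (four_mul h)
    rw [E_CA h]
    refine tt_ch (u := 2) (r := -d) (s := 1) (t := 0) ⟨two_ne_zero, ?_, ?_, ?_, ?_, ?_⟩
    · show (2 : ℚ) * 1 = 0 + 2 * 1
      ring
    · show (2 : ℚ) ^ 2 * (-(((3 * d + 1) / 4 : ℤ) : ℚ)) = 0 - 1 * 0 + 3 * (-(d : ℚ)) - 1 ^ 2
      linear_combination -h4
    · show (2 : ℚ) ^ 3 * 0 = 0 + (-(d : ℚ)) * 0 + 2 * 0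
      ring
    · show (2 : ℚ) ^ 4 * (-2 * (d : ℚ) ^ 2) = (-35 * (d : ℚ) ^ 2) - 1 * 0 + 2 * (-(d : ℚ)) * 0 -
        (0 + (-(d : ℚ)) * 1) * 0 + 3 * (-(d : ℚ)) ^ 2 - 2 * 1 * 0
      ring
    · show (2 : ℚ) ^ 6 * (-(d : ℚ) ^ 3) = (-98 * (d : ℚ) ^ 3) + (-(d : ℚ)) * (-35 * (d : ℚ) ^ 2) +
        (-(d : ℚ)) ^ 2 * 0 + (-(d : ℚ)) ^ 3 - 0 * 0 - 0 ^ 2 - (-(d : ℚ)) * 0 * 0
      ring
  · have e : E d = S7 d := by
      rw [E_CS h]
      rfl
    rw [e]

lemma tt_seven {D : ℕ} (hD : D ≠ 0) : TT' (-7 * (D : ℤ)) ↔ TT' (D : ℤ) := by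
  rw [tt_E, tt_E]
  push_cast
  exact (tt7_iff t_S7 (Nat.cast_ne_zero.2 hD)).symm

/-- no element of order two means that the 2-primary part is zero -/
lemma two_pow {A : Type} [AddCommGroup A] (h : ∀ x : A, x + x = 0 → x = 0) (n : ℕ) (x : A)
    (hx : 2 ^ n • x = 0) : x = 0 := by
  induction n generalizing x with
  | zero => simpa using hx
  | succ n ih =>
    refine h x (ih _ ?_)
    rw [← two_nsmul, smul_smul, ← pow_succ]
    exact hx

lemma Omega_PS {d : ℤ} (h : d % 4 ≠ 1) : Omega (twist d) = PS (d : ℝ) := by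
  have e : twist d = ⟨0, 0, 0, -35 * d ^ 2, -98 * d ^ 3⟩ := if_neg h
  have e1 : ∀ x, cubic (twist d) x = 4 * x ^ 3 - 140 * (d : ℝ) ^ 2 * x - 392 * (d : ℝ) ^ 3 := by
    intro x
    unfold cubic
    rw [e]
    unfold WeierstrassCurve.b₂ WeierstrassCurve.b₄ WeierstrassCurve.b₆
    simp only
    push_cast
    ring
  rw [real_gen e1]
  exact Pool.Agent.L0h23.EV.int_all
    (fun x => 4 * x ^ 3 - 140 * (d : ℝ) ^ 2 * x - 392 * (d : ℝ) ^ 3)

lemma Omega_PT {d : ℤ} (h : d % 4 = 1) : Omega (twist d) = PT (d : ℝ) := by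
  have e : twist d = ⟨1, -((3 * d + 1) / 4), 0, -2 * d ^ 2, -d ^ 3⟩ := if_pos h
  have h4 : (4 : ℝ) * (((3 * d + 1) / 4 : ℤ) : ℝ) = 3 * (d : ℝ) + 1 := by
    exact_mod_cast congrArg (Int.cast : ℤ → ℝ) (four_mul h)
  have e1 : ∀ x, cubic (twist d) x =
      4 * x ^ 3 - 3 * (d : ℝ) * x ^ 2 - 8 * (d : ℝ) ^ 2 * x - 4 * (d : ℝ) ^ 3 := by
    intro x
    unfold cubic
    rw [e]
    unfold WeierstrassCurve.b₂ WeierstrassCurve.b₄ WeierstrassCurve.b₆
    simp only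
    push_cast
    linear_combination (-x ^ 2) * h4
  rw [real_gen e1]
  exact Pool.Agent.L0h23.EV.int_all
    (fun x => 4 * x ^ 3 - 3 * (d : ℝ) * x ^ 2 - 8 * (d : ℝ) ^ 2 * x - 4 * (d : ℝ) ^ 3)

lemma Omega_seven {D : ℕ} (hD : D ≠ 0) :
    Omega (twist (-7 * (D : ℤ))) = Omega (twist (D : ℤ)) := by
  have hD0 : (0 : ℝ) < (D : ℝ) := Nat.cast_pos.2 (Nat.pos_of_ne_zero hD)
  by_cases h : (D : ℤ) % 4 = 1
  · rw [Omega_PT h, Omega_PT (by omega)]
    push_cast
    exact Pool.Agent.L0h4.T7.PT_neg hD0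
  · rw [Omega_PS h, Omega_PS (by omega)]
    push_cast
    exact Pool.Agent.L0h4.T7.PS_neg hD0

/-- the local data of the curve -/
def Loc (d : ℤ) : Prop :=
  (∀ v : HeightOneSpectrum (𝓞 ℚ), MinimalAt (E d) v) ∧
    (∃ m : ℕ, Odd m ∧ torsOrder (E d) = 2 * m) ∧
    Tam (E d) = 2 ^ ((if d % 4 = 1 then 1 else 3) + t (red d).natAbs)

theorem loc_seven {D : ℕ} (h : Adm0 D) : Loc (-7 * (D : ℤ)) := by
  have hD0 : D ≠ 0 := h.1.ne_zero
  have hn : Squarefree (-7 * (D : ℤ)) := by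
    have e1 : (-7 * (D : ℤ)).natAbs = 7 * D := by omega
    rw [← Int.squarefree_natAbs, e1, Nat.squarefree_mul
      ((Nat.Prime.coprime_iff_not_dvd (by norm_num)).2 h.2)]
    exact ⟨(by norm_num : Nat.Prime 7).squarefree, h.1⟩
  -- the odd part
  obtain ⟨m, hm, hm2⟩ : ∃ m : ℕ, (D = m ∨ D = 2 * m) ∧ m % 2 = 1 := by
    rcases Nat.mod_two_eq_zero_or_one D with h2 | h2
    · refine ⟨D / 2, Or.inr (by omega), ?_⟩
      by_contra h3
      have h5 : 2 * 2 ∣ D := by omega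
      exact absurd (h.1 2 h5) (by rw [Nat.isUnit_iff]; norm_num)
    · exact ⟨D, Or.inl rfl, h2⟩
  have hm0 : m ≠ 0 := by omega
  have hm7 : ¬ 7 ∣ m := fun h7 => h.2 (by
    rcases hm with h1 | h1
    · rw [h1]; exact h7
    · rw [h1]; exact h7.mul_left 2)
  have hmp : ∀ p : ℕ, p.Prime → p ≠ 2 → p ≠ 7 → ((p : ℤ) ∣ -7 * (D : ℤ) ↔ p ∣ m) := by
    intro p hp hp2 hp7
    have hpi : Prime (p : ℤ) := Nat.prime_iff_prime_int.1 hp
    have h1 : (p : ℤ) ∣ -7 * (D : ℤ) ↔ p ∣ D := by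
      constructor
      · intro h5
        rcases hpi.dvd_or_dvd h5 with h6 | h6
        · exfalso
          rw [dvd_neg] at h6
          have h8 : p ∣ 7 := by exact_mod_cast h6
          exact hp7 ((Nat.prime_dvd_prime_iff_eq hp (by norm_num)).1 h8)
        · exact_mod_cast h6
      · intro h5
        exact Dvd.dvd.mul_left (by exact_mod_cast h5) _
    rw [h1]
    rcases hm with h2 | h2
    · rw [h2]
    · rw [h2, hp.dvd_mul]
      refine ⟨fun h5 => ?_, Or.inr⟩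
      rcases h5 with h5 | h5
      · exact absurd ((Nat.prime_dvd_prime_iff_eq hp Nat.prime_two).1 h5) hp2
      · exact h5
  have ht : t (red (-7 * (D : ℤ))).natAbs =
      (Pool.Agent.L0h4.TA.QD m).card + 2 * (Pool.Agent.L0h4.TA.PD m).card := by
    rw [red_seven, Int.natAbs_natCast, ← t_odd hm2]
    rcases hm with h1 | h1
    · rw [h1]
    · rw [h1, t_even hm2]
  unfold Loc
  rw [ht]
  by_cases h4 : (-7 * (D : ℤ)) % 4 = 1
  · rw [E_CA h4, if_pos h4]
    refine ⟨fun v => Pool.Agent.L0h4.T7.minimal_CA v hn (four_mul h4), ?_, ?_⟩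
    · exact Pool.Agent.L0h4.T7.tnum_CA hn.ne_zero (four_mul h4)
    · exact Pool.Agent.L0h4.T7.prodtam_CA hn (four_mul h4) hm0 hm2 hm7 hmp
  · rw [E_CS h4, if_neg h4]
    refine ⟨fun v => Pool.Agent.L0h4.T7.minimal_CS v hn h4, ?_, ?_⟩
    · exact Pool.Agent.L0h4.T7.tnum_CS hn.ne_zero
    · exact Pool.Agent.L0h4.T7.prodtam_CS hn h4 hm0 hm2 hm7 hmp

/-- the L-series of the two curves are equal -/
lemma lser_seven {D : ℕ} (h : Adm0 D) : (E (-7 * (D : ℤ))).LSeries = (E (D : ℤ)).LSeries := by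
  have hn : Squarefree (D : ℤ) := Int.squarefree_natCast.2 h.1
  have hn7 : Squarefree (-7 * (D : ℤ)) := by
    have e1 : (-7 * (D : ℤ)).natAbs = 7 * D := by omega
    rw [← Int.squarefree_natAbs, e1, Nat.squarefree_mul
      ((Nat.Prime.coprime_iff_not_dvd (by norm_num)).2 h.2)]
    exact ⟨(by norm_num : Nat.Prime 7).squarefree, h.1⟩
  by_cases h4 : (D : ℤ) % 4 = 1
  · have h4' : (-7 * (D : ℤ)) % 4 = 1 := by omega
    rw [E_CA h4, E_CA h4']
    exact Pool.Agent.L0h4.T7.lser_CA hn hn7 (four_mul h4) (four_mul h4')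
  · rw [E_CS h4, E_CS (d := -7 * (D : ℤ)) (by omega)]
    exact Pool.Agent.L0h4.T7.lser_CS hn hn7 h4

/-- what is to be proved for one curve -/
def Raw (d : ℤ) : Prop :=
  Loc d ∧ (TT' d ↔ (mat (red d).natAbs).det ≠ 0) ∧
    ∃ Λ : ℂ → ℂ, Differentiable ℂ Λ ∧
      (∀ s : ℂ, 2 < s.re → Λ s = (E d).LSeries s) ∧
      ∀ (Γ : Type) [LinearOrderedCommGroupWithZero Γ] (v : Valuation ℂ Γ), v 2 < 1 →
        v (anOrder d (Λ 1)) ≤ 1 ∧ (v (anOrder d (Λ 1)) = 1 ↔ (mat (red d).natAbs).det ≠ 0)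

lemma red_nat {D : ℕ} (h : Adm0 D) : (red (D : ℤ)).natAbs = D := by
  rw [red_of (fun h7 => h.2 (by omega)), Int.natAbs_natCast]

theorem raw_pos {D : ℕ} (h : Adm0 D) : Raw (D : ℤ) := by
  obtain ⟨c1, c2, c3, c4, Λ, h1, h2, h3⟩ := quo h
  unfold Raw Loc
  rw [red_nat h, ← det_iff0 h]
  exact ⟨⟨c1, c2, c3⟩, Iff.rfl, Λ, h1, h2, fun Γ _ v hv => h3 Γ v hv⟩

theorem raw_neg {D : ℕ} (h : Adm0 D) : Raw (-7 * (D : ℤ)) := by
  obtain ⟨c1, c2, Λ, h1, h2, h3⟩ := raw_pos h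
  have hL := loc_seven h
  have hr : (red (-7 * (D : ℤ))).natAbs = D := by rw [red_seven, Int.natAbs_natCast]
  have hD0 : D ≠ 0 := h.1.ne_zero
  refine ⟨hL, ?_, Λ, h1, ?_, ?_⟩
  · rw [tt_seven hD0, c2, red_nat h, hr]
  · intro s hs
    rw [lser_seven h]
    exact h2 s hs
  · intro Γ _ v hv
    rw [hr]
    rw [red_nat h] at h3
    obtain ⟨k1, k2⟩ := h3 Γ v hv
    have ho : ∀ t : ℕ, Odd t → v (t : ℂ) = 1 := fun t ht => by
      have := Pool.Agent.Y698.v_oddI v hv (m := (t : ℤ)) (by exact_mod_cast ht)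
      push_cast at this
      exact this
    have ht : v ((torsOrder (E (-7 * (D : ℤ))) : ℕ) : ℂ) = v ((torsOrder (E (D : ℤ)) : ℕ) : ℂ) := by
      obtain ⟨a, ha, ha2⟩ := c1.2.1
      obtain ⟨b, hb, hb2⟩ := hL.2.1
      rw [ha2, hb2]
      push_cast
      rw [map_mul, map_mul, ho _ ha, ho _ hb]
    have hT : Tam (E (-7 * (D : ℤ))) = Tam (E (D : ℤ)) := by
      have e4 : (-7 * (D : ℤ)) % 4 = 1 ↔ (D : ℤ) % 4 = 1 := by omega
      rw [hL.2.2, c1.2.2, hr, red_nat h]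
      simp only [e4]
    have hv' : v (anOrder (-7 * (D : ℤ)) (Λ 1)) = v (anOrder (D : ℤ) (Λ 1)) := by
      unfold anOrder
      rw [map_div₀, map_div₀, map_mul, map_mul, map_mul, map_mul, map_pow, map_pow, ht, hT,
        Omega_seven hD0]
    rw [hv']
    exact ⟨k1, k2⟩

theorem raw {d : ℤ} (h : Adm d) : Raw d := by
  obtain ⟨D, hD, -, h1 | h1⟩ := adm_cases h
  · rw [h1]
    exact raw_pos hD
  · rw [h1]
    exact raw_neg hD

theorem core {d : ℤ} (h : Adm d) :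
    (∀ v : HeightOneSpectrum (𝓞 ℚ), MinimalAt (E d) v) ∧
    (∃ m : ℕ, Odd m ∧ torsOrder (E d) = 2 * m) ∧
    Tam (E d) = 2 ^ ((if d % 4 = 1 then 1 else 3) + t (red d).natAbs) ∧
    ((Finite (E d).toAffine.Point ∧ ∀ x : Sha (E d), x + x = 0 → x = 0) ↔
      (mat (red d).natAbs).det ≠ 0) ∧
    ((mat (red d).natAbs).det ≠ 0 → ∀ (n : ℕ) (x : Sha (E d)), 2 ^ n • x = 0 → x = 0) ∧
    ∃ Λ : ℂ → ℂ, Differentiable ℂ Λ ∧
      (∀ s : ℂ, 2 < s.re → Λ s = (E d).LSeries s) ∧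
      (∃ m : ℤ, Odd m ∧ _root_.IsIntegral ℤ (m * anOrder d (Λ 1))) ∧
      (∀ (Γ : Type) [LinearOrderedCommGroupWithZero Γ] (v : Valuation ℂ Γ), v 2 < 1 →
        v (anOrder d (Λ 1)) ≤ 1 ∧ (v (anOrder d (Λ 1)) = 1 ↔ (mat (red d).natAbs).det ≠ 0)) ∧
      ((mat (red d).natAbs).det ≠ 0 → Λ 1 ≠ 0 ∧
        ∃ m : ℤ, Odd m ∧ _root_.IsIntegral ℤ (m * anOrder d (Λ 1)) ∧
        _root_.IsIntegral ℤ (m * (anOrder d (Λ 1))⁻¹)) := by
  classical
  obtain ⟨⟨c1, c2, c3⟩, c4, Λ, h1, h2, h3⟩ := raw h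
  refine ⟨c1, c2, c3, c4, fun h4 => two_pow (c4.2 h4).2, Λ, h1, h2, ?_,
    fun Γ _ v hv => h3 Γ v hv, ?_⟩
  · exact Pool.Agent.Y698.int_of_val fun Γ _ v hv => (h3 Γ v hv).1
  · intro hC
    have hz : ∀ (Γ : Type) [LinearOrderedCommGroupWithZero Γ] (v : Valuation ℂ Γ), v 2 < 1 →
        v (anOrder d (Λ 1)) = 1 := fun Γ _ v hv => ((h3 Γ v hv).2).2 hC
    refine ⟨?_, ?_⟩
    · intro h0
      refine Pool.Agent.Y698.SG.exists_val2 fun Γ _ v hv => ?_
      have h5 := hz Γ v hv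
      rw [h0] at h5
      unfold anOrder at h5
      rw [zero_mul, zero_div, map_zero] at h5
      exact zero_ne_one h5
    · obtain ⟨m₁, hm₁, i₁⟩ := Pool.Agent.Y698.int_of_val
        (x := anOrder d (Λ 1)) fun Γ _ v hv => (hz Γ v hv).le
      obtain ⟨m₂, hm₂, i₂⟩ := Pool.Agent.Y698.int_of_val
        (x := (anOrder d (Λ 1))⁻¹) fun Γ _ v hv => by
          rw [map_inv₀, hz Γ v hv, inv_one]
      refine ⟨m₁ * m₂, hm₁.mul hm₂, ?_, ?_⟩
      · have e : ((m₁ * m₂ : ℤ) : ℂ) * anOrder d (Λ 1) =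
            (m₂ : ℂ) * ((m₁ : ℂ) * anOrder d (Λ 1)) := by
          push_cast; ring
        rw [e]
        exact IsIntegral.mul (isIntegral_algebraMap (R := ℤ) (A := ℂ) (x := m₂)) i₁
      · have e : ((m₁ * m₂ : ℤ) : ℂ) * (anOrder d (Λ 1))⁻¹ =
            (m₁ : ℂ) * ((m₂ : ℂ) * (anOrder d (Λ 1))⁻¹) := by
          push_cast; ring
        rw [e]
        exact IsIntegral.mul (isIntegral_algebraMap (R := ℤ) (A := ℂ) (x := m₁)) i₂

/-- the 2-part of the conjecture holds exactly in the nonsingular case -/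
theorem two_iff {d : ℤ} (h : Adm d) : TwoPart d ↔ (mat (red d).natAbs).det ≠ 0 := by
  obtain ⟨-, -, -, h4, h5, Λ, h6, h7, -, -, h8⟩ := core h
  constructor
  · rintro ⟨hf, hs, -⟩
    exact h4.1 ⟨hf, fun x hx => hs 1 x (by rw [pow_one, two_nsmul]; exact hx)⟩
  · intro hd
    obtain ⟨h9, h10⟩ := h8 hd
    exact ⟨(h4.2 hd).1, h5 hd, Λ, h6, h7, h9, h10⟩

/-- the criterion, in the form used for the proportions -/
lemma two_TT {d : ℤ} (h : Adm d) : TwoPart d ↔ Pool.Agent.L0h1.EV.TT (red d).natAbs := by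
  obtain ⟨D, hD, hr, -⟩ := adm_cases h
  rw [two_iff h, hr, ← det_iff0 hD, TT_eq]

open Classical in
theorem density {S : Finset ℕ} (hS : ∀ p ∈ S, p.Prime) (inf : Prop) {d₀ : ℤ} (h₀ : Adm d₀) :
    Filter.Tendsto (fun X : ℕ =>
        (((Finset.Icc (-(X : ℤ)) X).filter fun d => Adm d ∧ Near S inf d₀ d ∧ TwoPart d).card : ℝ) /
        (((Finset.Icc (-(X : ℤ)) X).filter fun d => Adm d ∧ Near S inf d₀ d).card : ℝ)) Filter.atTop
      (nhds ((∏' i : ℕ, (1 - (1 / 2 : ℝ) ^ (2 * i + 1))) / 2)) := by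
  have key := Pool.Agent.L0h4.T7.law49_abs hS inf h₀.1 h₀.2 (P := TwoPart)
    (fun e he hs => two_TT ⟨he, hs⟩)
  simp only [Pool.Agent.L0h4.T6.cntZ_eq]
  refine key.congr fun X => ?_
  have e1 : (fun e => Squarefree e ∧ ((0 < Pool.Agent.L0h4.T7.rd7 e ∧
      Pool.Agent.L0h4.T6.Nr S inf d₀ e) ∧ TwoPart e)) =
      fun d => Adm d ∧ Near S inf d₀ d ∧ TwoPart d := by
    funext e
    refine propext ⟨?_, ?_⟩
    · rintro ⟨h1, ⟨h2, h3⟩, h4⟩
      exact ⟨⟨h1, h2⟩, h3, h4⟩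
    · rintro ⟨⟨h1, h2⟩, h3, h4⟩
      exact ⟨h1, ⟨h2, h3⟩, h4⟩
  have e2 : (fun e => Squarefree e ∧ (0 < Pool.Agent.L0h4.T7.rd7 e ∧
      Pool.Agent.L0h4.T6.Nr S inf d₀ e)) = fun d => Adm d ∧ Near S inf d₀ d := by
    funext e
    refine propext ⟨?_, ?_⟩
    · rintro ⟨h1, h2, h3⟩
      exact ⟨⟨h1, h2⟩, h3⟩
    · rintro ⟨⟨h1, h2⟩, h3⟩
      exact ⟨h1, h2, h3⟩
  rw [e1, e2]

end proof

open Classical in
/-- **The 2-part of the conjecture of Birch and Swinnerton-Dyer for all the quadratic twists of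
`X_0(49)` with root number `+1`.** -/
theorem result :
    (∀ d : ℤ, Adm d →
      (∀ v : HeightOneSpectrum (𝓞 ℚ), MinimalAt (E d) v) ∧
      (∃ m : ℕ, Odd m ∧ torsOrder (E d) = 2 * m) ∧
      Tam (E d) = 2 ^ ((if d % 4 = 1 then 1 else 3) + t (red d).natAbs) ∧
      ((Finite (E d).toAffine.Point ∧ ∀ x : Sha (E d), x + x = 0 → x = 0) ↔
        (mat (red d).natAbs).det ≠ 0) ∧
      (TwoPart d ↔ (mat (red d).natAbs).det ≠ 0) ∧
      ∃ Λ : ℂ → ℂ, Differentiable ℂ Λ ∧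
        (∀ s : ℂ, 2 < s.re → Λ s = (E d).LSeries s) ∧
        (∃ m : ℤ, Odd m ∧ _root_.IsIntegral ℤ (m * anOrder d (Λ 1))) ∧
        ∀ (Γ : Type) [LinearOrderedCommGroupWithZero Γ] (v : Valuation ℂ Γ), v 2 < 1 →
          v (anOrder d (Λ 1)) ≤ 1 ∧
            (v (anOrder d (Λ 1)) = 1 ↔ (mat (red d).natAbs).det ≠ 0)) ∧
    ∀ (S : Finset ℕ) (inf : Prop) (d₀ : ℤ), (∀ p ∈ S, p.Prime) → Adm d₀ →
      Filter.Tendsto (fun X : ℕ =>
        (((Finset.Icc (-(X : ℤ)) X).filter fun d => Adm d ∧ Near S inf d₀ d ∧ TwoPart d).card : ℝ) /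
        (((Finset.Icc (-(X : ℤ)) X).filter fun d => Adm d ∧ Near S inf d₀ d).card : ℝ)) Filter.atTop
        (nhds ((∏' i : ℕ, (1 - (1 / 2 : ℝ) ^ (2 * i + 1))) / 2)) := by
  refine ⟨fun d h => ?_, fun S inf d₀ hS h₀ => density hS inf h₀⟩
  obtain ⟨h1, h2, h3, h4, -, Λ, h6, h7, h8, h9, -⟩ := core h
  exact ⟨h1, h2, h3, h4, two_iff h, Λ, h6, h7, h8, h9⟩

end Pool.Agent.Results.MP_4a9ea6_nt.TwoPartEveryTwist49
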