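import Pool.Agent.L0h4.IG.All
import Pool.Agent.L0h4.HN.All
import Pool.Agent.L0h4.T7.Two49
import Pool.Agent.L0h4.T6.Two36

/-!
# The 2-part of the strong Birch and Swinnerton-Dyer conjecture over `ℚ` with unbounded `Ш[2^∞]`, and the
# law of the order of `Ш[2^∞]`, for the twists of the curves 2-isogenous to `X_0(49)` and `X_0(36)`

`q` is `7` or `3`, and `d` is any squarefree integer such that the root number of the quadratic twist
`E_d` by `d` of `X_0(49) : y² + x y = x³ - x² - 2 x - 1` (`q = 7`) or of `X_0(36) : y² = x³ + 1` (`q = 3`)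
is `+1` (for `q = 3`, `d` is not one of `1, -3, -1, 3, -2, 6`). `E'_d` is the twist by `d` of the 2-isogenous
curve `y² + x y = x³ - x² - 37 x - 78` (`q = 7`, complex multiplication by the order of conductor two of
`ℚ(√-7)`) or `y² = x³ - 15 x + 22` (`q = 3`, the order of conductor two of `ℚ(√-3)`); the isogeny is used
in the proof and does not occur in the statement.

Let `s` (`i`) be the number of the prime factors `p ≡ 3 mod 4`, `p ≠ q`, of `d` such that `-q` is (is not) a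
square modulo `p`, and `ex = s + 1 - i - two`, `two` the small term of the prime two. Let
`z = #E'_d(ℚ)_tors² L(E'_d, 1) / (Ω ∏ c_p)`, which is zero or the order of `Ш(E'_d/ℚ)` according to the
conjecture. The theorem says, with no hypothesis on the rank or on `Ш`:
* the equation of `E'_d` is minimal at all the places, and the order of the torsion subgroup of
  `E'_d(ℚ)` is twice an odd number;
* `v(z) ≤ v(2) ^ ex` for all the valuations `v` of `ℂ` above two (that is, `2 ^ ex` divides `z`, if `ex ≥ 0`);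
* for any `v`, `v(z) = v(2) ^ ex` iff `Good`: `E_d(ℚ)` is finite and `Ш(E_d/ℚ)` has no element of order
  two;
* this is so iff `TwoPart` for `E'_d` with the exponent `ex`: `E'_d(ℚ)` is finite, `Ш(E'_d/ℚ)[2^∞]` is
  killed by two and its order is exactly `2 ^ ex`, `L(E'_d, s)` is entire, `L(E'_d, 1) ≠ 0`, `z ≠ 0` and
  `z / 2 ^ ex` is a unit at all the primes above two (the 2-part of the conjecture for `E'_d`);
* let `S` be a finite set of places of `ℚ` and `d₀` squarefree such that the root number of `E_{d₀}` is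
  `+1`: among the squarefree `d`, `|d| ≤ X`, such that the root number of `E_d` is `+1` and `d / d₀` is a
  square in `ℚ_v` for all `v ∈ S`, the proportion of the `d` for which this 2-part holds tends to
  `C / 2 = 0.2097...`, `C = ∏_{i ≥ 0} (1 - 2^{-(2i+1)})`, and the proportion of those for which moreover
  `log_2 #Ш(E'_d/ℚ)[2^∞] = ex ≤ y √(log log |d| / 2)` tends to `C ∫_0^y e^{-t²/2} dt / √(2π)`, for all
  `y ≥ 0`. So `#Ш(E'_d/ℚ)[2^∞]` is not bounded on the `d` for which the 2-part is proved, for every `k` it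
  is at least `2 ^ k` on 100% of them, and it has a half-normal law.

Proof: `TwoPartEveryTwist49`, `TwoPartEveryTwist36` for `E_d` (`Pool/Agent/L0h4/T7`, `T6`; see there), the
comparison of the local data, of the periods, of the L-series and of the 2-Selmer groups of `E_d` and `E'_d`
(`Pool/Agent/L0h4/IG` and `IG` in the directories of helpers 6, 12, 13, 24, 34, 41, 48, 53, 55, 56, 61, 64,
66, 71, 72, 76, 78, 81, 85, 88): the Selmer groups of the isogeny and of its dual are compared by the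
exact formula (reciprocity and Herbrand quotients of the local conditions), and the joint law of the
good twists and of `s - i` (`Pool/Agent/L0h4/HN` and `NL` in the directories of helpers 6, 48, 61, 84, 90, 91,
after `Pool/Agent/L0h74` `AP`, `EV`, `E3`, `KD`, `T3`): the condition on `s - i` is carried through the
proof of the proportion `C / 2`, and the central limit theorem gives the law. Joint work of helpers 1, 4, 6,
12, 13, 23, 24, 34, 41, 48, 53, 55, 56, 61, 64, 66, 71, 72, 74, 75, 76, 78, 80, 81, 84, 85, 86, 88, 90, 91,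
98.
-/

set_option autoImplicit false

open NumberField IsDedekindDomain WeierstrassCurve MeasureTheory

namespace Pool.Agent.Results.MP_4a9ea6_nt.TwoPartUnboundedSha

open Pool.Agent.TH841.NF.D (Sha)
open Pool.Agent.TH841.SH.D (Pt)

/-- The quadratic twist by the squarefree integer `d` of `X_0(49) : y² + x y = x³ - x² - 2 x - 1`
(`q = 7`) or of `X_0(36) : y² = x³ + 1` (`q = 3`), with integral coefficients. -/
def twist (q : ℕ) (d : ℤ) : WeierstrassCurve ℤ :=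
  if q = 7 then
    (if d % 4 = 1 then ⟨1, -((3 * d + 1) / 4), 0, -2 * d ^ 2, -d ^ 3⟩
      else ⟨0, 0, 0, -35 * d ^ 2, -98 * d ^ 3⟩)
  else ⟨0, 0, 0, 0, d ^ 3⟩

/-- The twist by `d` of the 2-isogenous curve `y² + x y = x³ - x² - 37 x - 78` (`q = 7`) or
`y² = x³ - 15 x + 22` (`q = 3`), with integral coefficients. -/
def twist' (q : ℕ) (d : ℤ) : WeierstrassCurve ℤ :=
  if q = 7 then
    (if d % 4 = 1 then ⟨1, -((3 * d + 1) / 4), 0, -37 * d ^ 2, -78 * d ^ 3⟩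
      else ⟨0, 0, 0, -595 * d ^ 2, -5586 * d ^ 3⟩)
  else ⟨0, 0, 0, -15 * d ^ 2, 22 * d ^ 3⟩

/-- The curve over `ℚ`. -/
abbrev overQ (W : WeierstrassCurve ℤ) : WeierstrassCurve ℚ := W.map (Int.castRingHom ℚ)

/-- The equation is minimal at the place `v`: no change of variables over `ℚ` that keeps the
coefficients integral at `v` decreases the order of the discriminant. -/
def MinimalAt (W : WeierstrassCurve ℚ) (v : HeightOneSpectrum (𝓞 ℚ)) : Prop :=
  ∀ C : VariableChange ℚ, v.valuation ℚ (C • W).a₁ ≤ 1 → v.valuation ℚ (C • W).a₂ ≤ 1 →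
    v.valuation ℚ (C • W).a₃ ≤ 1 → v.valuation ℚ (C • W).a₄ ≤ 1 → v.valuation ℚ (C • W).a₆ ≤ 1 →
    v.valuation ℚ (C • W).Δ ≤ v.valuation ℚ W.Δ

/-- `W⁰(ℚ_v)`, the group of the points of `W` over the completion `ℚ_v` with nonsingular reduction:
the point at infinity and the points `(x, y)` where `x` is not integral, or one of the partial
derivatives of `y² + a₁ x y + a₃ y - x³ - a₂ x² - a₄ x - a₆` is a unit at `(x, y)`.
Here `Pt W ℚ_v` is the group of the points of `W` over `ℚ_v`. -/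
noncomputable def nonsing (W : WeierstrassCurve ℚ) (v : HeightOneSpectrum (𝓞 ℚ)) :
    AddSubgroup (Pt W (v.adicCompletion ℚ)) :=
  AddSubgroup.closure {P | ∀ x y h, P = Affine.Point.some x y h →
    1 < Valued.v x ∨
    Valued.v ((W.baseChange (v.adicCompletion ℚ)).a₁ * y -
      (3 * x ^ 2 + 2 * (W.baseChange (v.adicCompletion ℚ)).a₂ * x +
        (W.baseChange (v.adicCompletion ℚ)).a₄)) = 1 ∨
    Valued.v (2 * y + (W.baseChange (v.adicCompletion ℚ)).a₁ * x +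
      (W.baseChange (v.adicCompletion ℚ)).a₃) = 1}

/-- The Tamagawa number `c_v = [W(ℚ_v) : W⁰(ℚ_v)]` of a minimal equation. -/
noncomputable def c (W : WeierstrassCurve ℚ) (v : HeightOneSpectrum (𝓞 ℚ)) : ℕ :=
  (nonsing W v).index

/-- The product of the Tamagawa numbers. -/
noncomputable def Tam (W : WeierstrassCurve ℚ) : ℕ := ∏ᶠ v : HeightOneSpectrum (𝓞 ℚ), c W v

/-- `4 x³ + b₂ x² + 2 b₄ x + b₆ = (2 y + a₁ x + a₃)²`. -/
def cubic (W : WeierstrassCurve ℤ) (x : ℝ) : ℝ := 4 * x ^ 3 + W.b₂ * x ^ 2 + 2 * W.b₄ * x + W.b₆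

/-- `Ω = ∫_{W(ℝ)} |ω|` with `ω = dx / (2 y + a₁ x + a₃)`, as an integral over `x`: two real points lie
over each `x` with `cubic x > 0`. -/
noncomputable def Omega (W : WeierstrassCurve ℤ) : ℝ :=
  2 * ∫ x in {x : ℝ | 0 < cubic W x}, 1 / √(cubic W x)

open Classical in
/-- The order of the torsion subgroup of `W(K)`. -/
noncomputable def torsOrder {K : Type} [Field K] (W : WeierstrassCurve K) : ℕ :=
  Nat.card (AddCommGroup.torsion W.toAffine.Point)

/-- The order of the Tate-Shafarevich group predicted by the formula, for the value `l` of the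
L-function at `s = 1`: `#W(ℚ)_tors² l / (Ω ∏ c_v)`. -/
noncomputable def anOrder (W : WeierstrassCurve ℤ) (l : ℂ) : ℂ :=
  l * (torsOrder (overQ W) : ℂ) ^ 2 / ((Omega W : ℝ) * (Tam (overQ W) : ℂ))

/-- The integer `d`, if it is prime to `q`, and `-d / q`, if `q ∣ d` (the twists by `d` and by `-q d`
are `q`-isogenous). -/
def red (q : ℕ) (d : ℤ) : ℤ := if (q : ℤ) ∣ d then -(d / q) else d

/-- The root number of `twist q d` is `+1` (for squarefree `d`): with `d' = red q d`, this is `d' > 0` for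
`q = 7`, and `|d'| ≡ 1 mod 4` or `d'` even and negative for `q = 3`. -/
def Sign (q : ℕ) (d : ℤ) : Prop :=
  if q = 7 then 0 < red q d else (red q d).natAbs % 4 = 1 ∨ red q d % 2 = 0 ∧ red q d < 0

/-- `d` is squarefree and the root number of `twist q d` is `+1`; for `q = 3` moreover `d` is not
`1, -1, 3, -3, -2, 6`. -/
def Adm (q : ℕ) (d : ℤ) : Prop := Squarefree d ∧ Sign q d ∧ (q = 7 ∨ 2 < (red q d).natAbs)

/-- `d / d₀` is a square in `ℚ_p` for all the prime numbers `p` in `S` and, if `inf`, in `ℝ`. -/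
def Near (S : Finset ℕ) (inf : Prop) (d₀ d : ℤ) : Prop :=
  (∀ p ∈ S, ∀ _ : Fact p.Prime, IsSquare ((d * d₀ : ℤ) : ℚ_[p])) ∧ (inf → 0 < d * d₀)

/-- There are only finitely many rational points, and `Ш` has no element of order two. -/
def Good (q : ℕ) (d : ℤ) : Prop := Finite (overQ (twist q d)).toAffine.Point ∧
  ∀ x : Sha (overQ (twist q d)), x + x = 0 → x = 0

open Classical in
/-- The number of the prime factors `p ≡ 3 mod 4` of `n`, other than `q`, such that `-q` is a square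
modulo `p`. -/
noncomputable def s (q n : ℕ) : ℕ :=
  (n.primeFactors.filter fun p => p ≠ q ∧ p % 4 = 3 ∧ IsSquare (-(q : ℤ) : ZMod p)).card

open Classical in
/-- The number of the prime factors `p ≡ 3 mod 4` of `n`, other than `q`, such that `-q` is not a square
modulo `p`. -/
noncomputable def i (q n : ℕ) : ℕ :=
  (n.primeFactors.filter fun p => p ≠ q ∧ p % 4 = 3 ∧ ¬ IsSquare (-(q : ℤ) : ZMod p)).card

/-- The term of the prime two: for `q = 7` it is `1` if the odd part of `d` is `1` modulo `4` and `0` if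
not; for `q = 3` it is `2` if `d ≡ 2 mod 8`, and `1` if not. -/
def two (q : ℕ) (d : ℤ) : ℕ :=
  if q = 7 then (if d % 4 = 1 ∨ d % 8 = 2 then 1 else 0) else (if d % 8 = 2 then 2 else 1)

/-- The exponent `s + 1 - i - two`. -/
noncomputable def ex (q : ℕ) (d : ℤ) : ℤ := s q d.natAbs + 1 - i q d.natAbs - two q d

/-- The 2-part of the conjecture for `W`, with 2-primary part of `Ш` of order `2 ^ k`: `W(ℚ)` is finite,
the 2-primary part of `Ш` is killed by two and has `2 ^ k` elements, `L(W, s)` has an entire continuation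
`Λ` with `Λ 1 ≠ 0`, and the quotient of the predicted order of `Ш` by `2 ^ k` is a unit at all the
primes above two. -/
def TwoPart (W : WeierstrassCurve ℤ) (k : ℤ) : Prop :=
  Finite (overQ W).toAffine.Point ∧
  (∀ (n : ℕ) (x : Sha (overQ W)), 2 ^ n • x = 0 → x + x = 0) ∧
  (Nat.card {x : Sha (overQ W) // ∃ n : ℕ, 2 ^ n • x = 0} : ℚ) = 2 ^ k ∧
    ∃ Λ : ℂ → ℂ, Differentiable ℂ Λ ∧ (∀ s : ℂ, 2 < s.re → Λ s = (overQ W).LSeries s) ∧
      Λ 1 ≠ 0 ∧ anOrder W (Λ 1) ≠ 0 ∧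
      ∃ m : ℤ, Odd m ∧ _root_.IsIntegral ℤ (m * (anOrder W (Λ 1) / 2 ^ k)) ∧
        _root_.IsIntegral ℤ (m * (anOrder W (Λ 1) / 2 ^ k)⁻¹)

section proof

open Pool.Agent.L0h4.IG
open Pool.Agent.L0h4.T7 (CS CA vr_CS vr_CA tam_CS tam_CA Fz)
open Pool.Agent.L0h4.T6 (Fb tam_CB)
open Pool.Agent.L0h75.IS (CB)
open Pool.Agent.Y700 (VR)
open Pool.Agent.Y698.SG.Cv (WF)
open Pool.Agent.H921R2.TatePole Pool.Agent.H82R3.EK

lemma s_eq (q n : ℕ) : s q n = ns q n := rfl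
lemma i_eq (q n : ℕ) : i q n = ni q n := rfl
lemma two_eq (q : ℕ) (d : ℤ) : two q d = lam q d := rfl

/-! ### the curves -/

lemma four_mul {d : ℤ} (h : d % 4 = 1) : 4 * ((3 * d + 1) / 4) = 3 * d + 1 := by omega

lemma tw7_one {d : ℤ} (h : d % 4 = 1) : twist 7 d = CA ℤ ((3 * d + 1) / 4) d := by
  unfold twist CA
  rw [if_pos rfl, if_pos h]
  ext <;> simp

lemma tw7_other {d : ℤ} (h : d % 4 ≠ 1) : twist 7 d = CS ℤ d := by
  unfold twist CS
  rw [if_pos rfl, if_neg h]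
  ext <;> simp

lemma tw3 (d : ℤ) : twist 3 d = CB ℤ (d ^ 3) := by
  unfold twist CB
  rw [if_neg (by norm_num)]
  ext <;> simp

lemma tw7_one' {d : ℤ} (h : d % 4 = 1) : twist' 7 d = CU ℤ ((3 * d + 1) / 4) d := by
  unfold twist' CU
  rw [if_pos rfl, if_pos h]
  ext <;> simp

lemma tw7_other' {d : ℤ} (h : d % 4 ≠ 1) : twist' 7 d = CT ℤ d := by
  unfold twist' CT
  rw [if_pos rfl, if_neg h]
  ext <;> simp

lemma tw3' (d : ℤ) : twist' 3 d = CV ℤ d := by
  unfold twist' CV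
  rw [if_neg (by norm_num)]
  ext <;> simp

lemma q_CA (c n : ℤ) : overQ (CA ℤ c n) = CA ℚ c n :=
  Pool.Agent.L0h4.T7.CA_map c n (Int.castRingHom ℚ)

lemma q_CS (n : ℤ) : overQ (CS ℤ n) = CS ℚ n :=
  Pool.Agent.L0h4.T7.CS_map n (Int.castRingHom ℚ)

lemma q_CB (n : ℤ) : overQ (CB ℤ n) = CB ℚ n :=
  Pool.Agent.L0h75.IS.CB_map n (Int.castRingHom ℚ)

lemma q_CT (n : ℤ) : overQ (CT ℤ n) = CT ℚ n := by
  unfold overQ CT
  ext <;> simp

lemma q_CU (c n : ℤ) : overQ (CU ℤ c n) = CU ℚ c n := by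
  unfold overQ CU
  ext <;> simp

lemma q_CV (n : ℤ) : overQ (CV ℤ n) = CV ℚ n := by
  unfold overQ CV
  ext <;> simp

lemma O_eq (W : WeierstrassCurve ℤ) : Omega W = Om W := rfl

lemma T_eq (W : WeierstrassCurve ℚ) : Tam W = ∏ᶠ v, Pool.Agent.Y698.tam W v := rfl

lemma t_eq (W : WeierstrassCurve ℚ) : torsOrder W = Pool.Agent.Y698.SG.tnum W := by
  unfold torsOrder Pool.Agent.Y698.SG.tnum
  rfl

lemma two_le (v : HeightOneSpectrum (𝓞 ℚ)) (f g : ℕ) (h1 : (below v : ℕ) ≠ 2 → f = g)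
    (h2 : (below v : ℕ) = 2 → f = g) : f = g := by
  by_cases h : (below v : ℕ) = 2
  · exact h2 h
  · exact h1 h

lemma tam_CT {d : ℤ} (hd : Squarefree d) (h4 : d % 4 ≠ 1) (v : HeightOneSpectrum (𝓞 ℚ)) :
    Pool.Agent.Y698.tam (CT ℚ d) v = Ft d (below v : ℕ) := by
  have h40 : d % 4 ≠ 0 := fun h => by
    have h5 : (2 : ℤ) * 2 ∣ d := by omega
    have := hd 2 h5
    rw [Int.isUnit_iff] at this
    omega
  refine two_le v _ _ (fun h => (All.taw v d hd h).1 h4) fun h => ?_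
  unfold Ft
  rw [if_pos h, if_neg h4]
  by_cases h8 : d % 8 = 2
  · rw [if_pos h8]
    exact (All.tt2 v d hd h).1 h8
  · rw [if_neg h8]
    by_cases h3 : d % 4 = 3
    · exact All.tt3 v d hd h h3
    · exact (All.tt2 v d hd h).2 (by omega)

lemma tam_CU {c d : ℤ} (hd : Squarefree d) (hc : 4 * c = 3 * d + 1)
    (v : HeightOneSpectrum (𝓞 ℚ)) :
    Pool.Agent.Y698.tam (CU ℚ c d) v = Ft d (below v : ℕ) := by
  refine two_le v _ _ (fun h => (All.taw v d hd h).2 c hc) fun h => ?_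
  unfold Ft
  rw [if_pos h, if_pos (by omega)]
  exact All.tu2 v c d hd h hc

lemma tam_CV {d : ℤ} (hd : Squarefree d) (v : HeightOneSpectrum (𝓞 ℚ)) :
    Pool.Agent.Y698.tam (CV ℚ d) v = Fv d (below v : ℕ) := by
  have h40 : d % 4 ≠ 0 := fun h => by
    have h5 : (2 : ℤ) * 2 ∣ d := by omega
    have := hd 2 h5
    rw [Int.isUnit_iff] at this
    omega
  refine two_le v _ _ (fun h => All.tax v d hd h) fun h => ?_
  obtain ⟨k1, k2, k3⟩ := All.tv1 v d hd h
  obtain ⟨k4, k5⟩ := All.tv2 v d hd h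
  unfold Fv
  rw [if_pos h]
  split_ifs with h1 h2 h3
  · exact k1 h1
  · exact k4 h2
  · exact k5 (by omega)
  · by_cases h5 : d % 4 = 1
    · exact k2 (by omega)
    · exact k3 (by omega)

/-- the local data of `E'` -/
def Loc' (q : ℕ) (d : ℤ) : Prop :=
  (∀ v : HeightOneSpectrum (𝓞 ℚ), MinimalAt (overQ (twist' q d)) v) ∧
  (∃ m : ℕ, Odd m ∧ torsOrder (overQ (twist' q d)) = 2 * m) ∧
  Tam (overQ (twist' q d)) * 2 ^ (s q d.natAbs + 1) =
    Tam (overQ (twist q d)) * 2 ^ (i q d.natAbs + two q d) ∧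
  Omega (twist' q d) = Omega (twist q d) ∧
  (overQ (twist' q d)).LSeries = (overQ (twist q d)).LSeries

theorem loc' {q : ℕ} (hq : q = 3 ∨ q = 7) {d : ℤ} (hd : Squarefree d) : Loc' q d := by
  have hd0 : d ≠ 0 := hd.ne_zero
  rcases hq with rfl | rfl
  · unfold Loc'
    rw [tw3, tw3', q_CV, q_CB]
    refine ⟨fun v => (All.mn v d hd).2.2, ?_, ?_, (All.pec d hd0).2.2, All.lsv d hd⟩
    · rw [t_eq]
      exact (All.tns d hd0).2.2
    · rw [T_eq, T_eq, finprod_congr fun v => tam_CV hd v, finprod_congr fun v => tam_CB v hd]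
      exact (All.prt d hd).2
  · unfold Loc'
    by_cases h4 : d % 4 = 1
    · have hc := four_mul h4
      rw [tw7_one h4, tw7_one' h4, q_CU, q_CA]
      refine ⟨fun v => (All.mn v d hd).2.1 _ hc, ?_, ?_, (All.pec d hd0).2.1 _ hc,
        (All.lst d hd).2 _ hc⟩
      · rw [t_eq]
        exact (All.tns d hd0).2.1 _ hc
      · rw [T_eq, T_eq, finprod_congr fun v => tam_CU hd hc v,
          finprod_congr fun v => tam_CA v hd hc]
        exact (All.prt d hd).1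
    · rw [tw7_other h4, tw7_other' h4, q_CT, q_CS]
      refine ⟨fun v => (All.mn v d hd).1 h4, ?_, ?_, (All.pec d hd0).1, (All.lst d hd).1 h4⟩
      · rw [t_eq]
        exact (All.tns d hd0).1
      · rw [T_eq, T_eq, finprod_congr fun v => tam_CT hd h4 v,
          finprod_congr fun v => tam_CS v hd h4]
        exact (All.prt d hd).1

/-! ### the Tate-Shafarevich group -/

section sha

lemma card_sha {A B : Type} [AddCommGroup A] [AddCommGroup B] (e : A ≃+ B) :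
    Nat.card {x : A // ∃ n : ℕ, 2 ^ n • x = 0} = Nat.card {x : B // ∃ n : ℕ, 2 ^ n • x = 0} := by
  refine Nat.card_congr (e.toEquiv.subtypeEquiv fun x => ?_)
  refine exists_congr fun n => ?_
  show 2 ^ n • x = 0 ↔ 2 ^ n • e x = 0
  rw [← map_nsmul, EmbeddingLike.map_eq_zero_iff]

lemma kill_sha {A B : Type} [AddCommGroup A] [AddCommGroup B] (e : A ≃+ B)
    (h : ∀ (n : ℕ) (x : A), 2 ^ n • x = 0 → x + x = 0) (n : ℕ) (x : B) (hx : 2 ^ n • x = 0) :
    x + x = 0 := by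
  have h1 := h n (e.symm x) (by rw [← map_nsmul, hx, map_zero])
  rw [← map_add, EmbeddingLike.map_eq_zero_iff] at h1
  exact h1

lemma zero_sha {A B : Type} [AddCommGroup A] [AddCommGroup B] (e : A ≃+ B)
    (h : ∀ (n : ℕ) (x : B), 2 ^ n • x = 0 → x = 0) (n : ℕ) (x : A) (hx : 2 ^ n • x = 0) :
    x = 0 := by
  have h1 := h n (e x) (by rw [← map_nsmul, hx, map_zero])
  rwa [EmbeddingLike.map_eq_zero_iff] at h1

lemma WF_Δ (a b : ℤ) (hb : b ≠ 0) (hab : a ^ 2 - 4 * b ≠ 0) : (WF ℚ a b).Δ ≠ 0 := by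
  have e : (WF ℚ a b).Δ = ((16 * b ^ 2 * (a ^ 2 - 4 * b) : ℤ) : ℚ) := by
    unfold WF Pool.Agent.Y668.Wt WeierstrassCurve.Δ WeierstrassCurve.b₂ WeierstrassCurve.b₄
      WeierstrassCurve.b₆ WeierstrassCurve.b₈
    push_cast
    ring
  rw [e, Int.cast_ne_zero]
  exact mul_ne_zero (mul_ne_zero (by norm_num) (pow_ne_zero 2 hb)) hab

lemma f_ne {q : ℕ} (hq : q = 3 ∨ q = 7) {d : ℤ} (hd : d ≠ 0) : fb q d ≠ 0 ∧
    fa q d ^ 2 - 4 * fb q d ≠ 0 := by
  rcases hq with rfl | rfl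
  · unfold fa fb
    rw [if_neg (by norm_num), if_neg (by norm_num)]
    refine ⟨mul_ne_zero (by norm_num) (pow_ne_zero 2 hd), ?_⟩
    have e : (-3 * d) ^ 2 - 4 * (3 * d ^ 2) = -3 * d ^ 2 := by ring
    rw [e]
    exact mul_ne_zero (by norm_num) (pow_ne_zero 2 hd)
  · unfold fa fb
    rw [if_pos rfl, if_pos rfl]
    refine ⟨mul_ne_zero (by norm_num) (pow_ne_zero 2 hd), ?_⟩
    have e : (21 * d) ^ 2 - 4 * (112 * d ^ 2) = -7 * d ^ 2 := by ring
    rw [e]
    exact mul_ne_zero (by norm_num) (pow_ne_zero 2 hd)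

/-- the models over `ℚ` -/
theorem models {q : ℕ} (hq : q = 3 ∨ q = 7) (d : ℤ) :
    (∃ u r s t : ℚ, VR (WF ℚ (fa q d) (fb q d)) (overQ (twist q d)) u r s t) ∧
    ∃ u r s t : ℚ, VR (WF ℚ (-2 * fa q d) (fa q d ^ 2 - 4 * fb q d)) (overQ (twist' q d)) u r s t := by
  rcases hq with rfl | rfl
  · rw [tw3, tw3', q_CV, q_CB]
    exact ⟨⟨_, _, _, _, All.vrs.2.2.2 ℚ d⟩, ⟨_, _, _, _, All.vrs.2.2.1 ℚ d⟩⟩
  · by_cases h4 : d % 4 = 1
    · have hc := four_mul h4
      rw [tw7_one h4, tw7_one' h4, q_CU, q_CA]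
      exact ⟨⟨_, _, _, _, vr_CA ℚ hc⟩, ⟨_, _, _, _, All.vrs.2.1 ℚ _ d hc⟩⟩
    · rw [tw7_other h4, tw7_other' h4, q_CT, q_CS]
      exact ⟨⟨_, _, _, _, vr_CS ℚ d⟩, ⟨_, _, _, _, All.vrs.1 ℚ d⟩⟩

theorem sha' {q : ℕ} (hq : q = 3 ∨ q = 7) {d : ℤ} (hd : Squarefree d)
    (hf : Finite (overQ (twist q d)).toAffine.Point)
    (hs : ∀ (n : ℕ) (x : Sha (overQ (twist q d))), 2 ^ n • x = 0 → x = 0) :
    Finite (overQ (twist' q d)).toAffine.Point ∧
    (∀ (n : ℕ) (x : Sha (overQ (twist' q d))), 2 ^ n • x = 0 → x + x = 0) ∧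
    i q d.natAbs + two q d ≤ s q d.natAbs + 1 ∧
    Nat.card {x : Sha (overQ (twist' q d)) // ∃ n : ℕ, 2 ^ n • x = 0} =
      2 ^ (s q d.natAbs + 1 - (i q d.natAbs + two q d)) := by
  obtain ⟨hb, hab⟩ := f_ne hq hd.ne_zero
  obtain ⟨⟨u, r, t, w, h1⟩, ⟨u', r', t', w', h2⟩⟩ := models hq d
  obtain ⟨k1, ⟨e1⟩⟩ := All.sht _ _ u r t w (WF_Δ _ _ hb hab) h1
  have hab' : (-2 * fa q d) ^ 2 - 4 * (fa q d ^ 2 - 4 * fb q d) ≠ 0 := by
    have e : (-2 * fa q d) ^ 2 - 4 * (fa q d ^ 2 - 4 * fb q d) = 16 * fb q d := by ring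
    rw [e]
    exact mul_ne_zero (by norm_num) hb
  obtain ⟨k2, ⟨e2⟩⟩ := All.sht _ _ u' r' t' w' (WF_Δ _ _ hab hab') h2
  obtain ⟨g1, g2, g3, g4⟩ := All.shm q hq d hd (k1.2 hf) (zero_sha e1 hs)
  exact ⟨k2.1 g1, kill_sha e2 g2, g3, by rw [← card_sha e2]; exact g4⟩

end sha

/-! ### the curves `E` -/

open Pool.Agent.L0h4.T7 in
lemma tw7 (d : ℤ) : twist 7 d = Two49.twist d := by
  unfold twist
  rw [if_pos rfl]
  rfl

open Pool.Agent.L0h4.T6 in
lemma tw36 (d : ℤ) : twist 3 d = Two36.twist d := by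
  unfold twist
  rw [if_neg (by norm_num)]
  rfl

lemma red7 (d : ℤ) : red 7 d = Pool.Agent.L0h4.T7.Two49.red d := by
  unfold red Pool.Agent.L0h4.T7.Two49.red
  norm_num

lemma red3 (d : ℤ) : red 3 d = Pool.Agent.L0h4.T6.Two36.red d := by
  unfold red Pool.Agent.L0h4.T6.Two36.red
  norm_num

/-- the criterion -/
def Crit (q : ℕ) (d : ℤ) : Prop :=
  if q = 7 then Pool.Agent.L0h1.EV.TT (red q d).natAbs else Pool.Agent.L0h74.E3.Cr (red q d).natAbs

lemma adm7 {d : ℤ} (h : Adm 7 d) : Pool.Agent.L0h4.T7.Two49.Adm d := by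
  refine ⟨h.1, ?_⟩
  have h2 := h.2.1
  unfold Sign at h2
  rw [if_pos rfl, red7] at h2
  exact h2

lemma adm3 {d : ℤ} (h : Adm 3 d) : Pool.Agent.L0h4.T6.Two36.Adm d := by
  have h2 := h.2.1
  have h3 := h.2.2.resolve_left (by norm_num)
  unfold Sign at h2
  rw [if_neg (by norm_num), red3] at h2
  rw [red3] at h3
  exact ⟨h.1, h2, h3⟩

/-- what is known on `E` -/
def Base (q : ℕ) (d : ℤ) : Prop :=
  (∀ v : HeightOneSpectrum (𝓞 ℚ), MinimalAt (overQ (twist q d)) v) ∧ (∃ m : ℕ, Odd m ∧ torsOrder (overQ (twist q d)) = 2 * m) ∧ (Good q d ↔ Crit q d) ∧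
    ∃ Λ : ℂ → ℂ, Differentiable ℂ Λ ∧
      (∀ s : ℂ, 2 < s.re → Λ s = (overQ (twist q d)).LSeries s) ∧
      ∀ (Γ : Type) [LinearOrderedCommGroupWithZero Γ] (v : Valuation ℂ Γ), v 2 < 1 →
        v (anOrder (twist q d) (Λ 1)) ≤ 1 ∧ (v (anOrder (twist q d) (Λ 1)) = 1 ↔ Crit q d)

theorem base {q : ℕ} (hq : q = 3 ∨ q = 7) {d : ℤ} (h : Adm q d) : Base q d := by
  rcases hq with rfl | rfl
  · have hA := adm3 h
    obtain ⟨c1, c2, -, c4, -, Λ, g1, g2, -, g3, -⟩ := Pool.Agent.L0h4.T6.Two36.core hA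
    have hC : Crit 3 d ↔ Pool.Agent.L0h4.T6.Two36.Cr d := by
      unfold Crit
      rw [if_neg (by norm_num), red3]
      exact (Pool.Agent.L0h4.T6.Two36.Cr_E3 d).symm
    unfold Base Good
    rw [tw36, hC]
    exact ⟨c1, c2, c4, Λ, g1, g2, g3⟩
  · have hA := adm7 h
    obtain ⟨c1, c2, -, c4, -, Λ, g1, g2, -, g3, -⟩ := Pool.Agent.L0h4.T7.Two49.core hA
    have hC : Crit 7 d ↔ (Pool.Agent.L0h4.T7.Two49.mat
        (Pool.Agent.L0h4.T7.Two49.red d).natAbs).det ≠ 0 := by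
      rw [← Pool.Agent.L0h4.T7.Two49.two_iff hA, Pool.Agent.L0h4.T7.Two49.two_TT hA]
      unfold Crit
      rw [if_pos rfl, red7]
    unfold Base Good
    rw [tw7, hC]
    exact ⟨c1, c2, c4, Λ, g1, g2, g3⟩

/-! ### the predicted orders -/

section val
variable {Γ : Type} [LinearOrderedCommGroupWithZero Γ] {v : Valuation ℂ Γ}

lemma v_odd (t2 : v 2 < 1) {t : ℕ} (ht : Odd t) : v (t : ℂ) = 1 := by
  have := Pool.Agent.Y698.v_oddI v t2 (m := (t : ℤ)) (by exact_mod_cast ht)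
  push_cast at this
  exact this

/-- the valuations of the two predicted orders -/
lemma v_an (t2 : v 2 < 1) {W W' : WeierstrassCurve ℤ} {A B : ℕ}
    (h1 : ∃ m : ℕ, Odd m ∧ torsOrder (overQ W) = 2 * m)
    (h2 : ∃ m : ℕ, Odd m ∧ torsOrder (overQ W') = 2 * m) (hO : Omega W' = Omega W)
    (hT : Tam (overQ W') * 2 ^ A = Tam (overQ W) * 2 ^ B) (l : ℂ) :
    v (anOrder W' l) * v 2 ^ B = v (anOrder W l) * v 2 ^ A := by
  obtain ⟨a, ha, ha2⟩ := h1
  obtain ⟨b, hb, hb2⟩ := h2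
  have ht : v ((torsOrder (overQ W') : ℕ) : ℂ) = v ((torsOrder (overQ W) : ℕ) : ℂ) := by
    rw [ha2, hb2]
    push_cast
    rw [map_mul, map_mul, v_odd t2 ha, v_odd t2 hb]
  have hT' : v ((Tam (overQ W') : ℕ) : ℂ) * v 2 ^ A = v ((Tam (overQ W) : ℕ) : ℂ) * v 2 ^ B := by
    have h3 := congrArg (fun n : ℕ => v (n : ℂ)) hT
    push_cast at h3
    rw [map_mul, map_mul, map_pow, map_pow] at h3
    exact h3
  have v2 : v 2 ≠ 0 := (Valuation.ne_zero_iff v).2 two_ne_zero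
  have hA : v 2 ^ A ≠ 0 := pow_ne_zero _ v2
  have hB : v 2 ^ B ≠ 0 := pow_ne_zero _ v2
  unfold anOrder
  rw [map_div₀, map_div₀, map_mul, map_mul, map_mul, map_mul, map_pow, map_pow, ht, hO]
  by_cases h0 : v ((Tam (overQ W) : ℕ) : ℂ) = 0
  · have h0' : v ((Tam (overQ W') : ℕ) : ℂ) = 0 := by
      rw [h0, zero_mul] at hT'
      exact (mul_eq_zero.1 hT').resolve_right hA
    rw [h0, h0', mul_zero, div_zero, zero_mul, zero_mul]
  · have h0' : v ((Tam (overQ W') : ℕ) : ℂ) ≠ 0 := by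
      intro h
      rw [h, zero_mul] at hT'
      exact mul_ne_zero h0 hB hT'.symm
    by_cases hΩ : v ((Omega W : ℝ) : ℂ) = 0
    · rw [hΩ, zero_mul, zero_mul, div_zero, zero_mul, zero_mul]
    · rw [div_mul_eq_mul_div, div_mul_eq_mul_div, div_eq_div_iff (mul_ne_zero hΩ h0')
        (mul_ne_zero hΩ h0)]
      calc _ = (v l * v ((torsOrder (overQ W) : ℕ) : ℂ) ^ 2 * v ((Omega W : ℝ) : ℂ)) *
            (v ((Tam (overQ W) : ℕ) : ℂ) * v 2 ^ B) := by ac_rfl
        _ = (v l * v ((torsOrder (overQ W) : ℕ) : ℂ) ^ 2 * v ((Omega W : ℝ) : ℂ)) *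
            (v ((Tam (overQ W') : ℕ) : ℂ) * v 2 ^ A) := by rw [hT']
        _ = _ := by ac_rfl

end val

/-- units above two -/
lemma unit_int {z : ℂ} (h : ∀ (Γ : Type) [LinearOrderedCommGroupWithZero Γ] (v : Valuation ℂ Γ),
    v 2 < 1 → v z = 1) :
    z ≠ 0 ∧ ∃ m : ℤ, Odd m ∧ _root_.IsIntegral ℤ (m * z) ∧ _root_.IsIntegral ℤ (m * z⁻¹) := by
  refine ⟨?_, ?_⟩
  · rintro rfl
    refine Pool.Agent.Y698.SG.exists_val2 fun Γ _ v hv => ?_
    have h5 := h Γ v hv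
    rw [map_zero] at h5
    exact zero_ne_one h5
  · obtain ⟨m₁, hm₁, i₁⟩ := Pool.Agent.Y698.int_of_val (x := z) fun Γ _ v hv => (h Γ v hv).le
    obtain ⟨m₂, hm₂, i₂⟩ := Pool.Agent.Y698.int_of_val (x := z⁻¹) fun Γ _ v hv => by
      rw [map_inv₀, h Γ v hv, inv_one]
    refine ⟨m₁ * m₂, hm₁.mul hm₂, ?_, ?_⟩
    · have e : ((m₁ * m₂ : ℤ) : ℂ) * z = (m₂ : ℂ) * ((m₁ : ℂ) * z) := by
        push_cast; ring
      rw [e]
      exact IsIntegral.mul (isIntegral_algebraMap (R := ℤ) (A := ℂ) (x := m₂)) i₁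
    · have e : ((m₁ * m₂ : ℤ) : ℂ) * z⁻¹ = (m₁ : ℂ) * ((m₂ : ℂ) * z⁻¹) := by
        push_cast; ring
      rw [e]
      exact IsIntegral.mul (isIntegral_algebraMap (R := ℤ) (A := ℂ) (x := m₁)) i₂

lemma two_pow {A : Type} [AddCommGroup A] (h : ∀ x : A, x + x = 0 → x = 0) (n : ℕ) (x : A)
    (hx : 2 ^ n • x = 0) : x = 0 := Pool.Agent.L0h4.T7.Two49.two_pow h n x hx

/-! ### the 2-part -/

/-- the predicted order for `E'` -/
theorem base' {q : ℕ} (hq : q = 3 ∨ q = 7) {d : ℤ} (h : Adm q d) :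
    ∃ Λ : ℂ → ℂ, Differentiable ℂ Λ ∧
      (∀ s : ℂ, 2 < s.re → Λ s = (overQ (twist' q d)).LSeries s) ∧
      ∀ (Γ : Type) [LinearOrderedCommGroupWithZero Γ] (v : Valuation ℂ Γ), v 2 < 1 →
        v (anOrder (twist' q d) (Λ 1)) ≤ v 2 ^ ex q d ∧
          (v (anOrder (twist' q d) (Λ 1)) = v 2 ^ ex q d ↔ Crit q d) := by
  obtain ⟨-, c1, c2, Λ, g1, g2, g3⟩ := base hq h
  obtain ⟨k1, k2, k3, k4, k5⟩ := loc' hq h.1
  refine ⟨Λ, g1, fun s hs => by rw [k5]; exact g2 s hs, fun Γ _ v hv => ?_⟩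
  obtain ⟨g4, g5⟩ := g3 Γ v hv
  have h6 := v_an hv c1 k2 k4 k3 (Λ 1)
  have v2 : v 2 ≠ 0 := (Valuation.ne_zero_iff v).2 two_ne_zero
  have e : v (anOrder (twist' q d) (Λ 1)) = v (anOrder (twist q d) (Λ 1)) * v 2 ^ ex q d := by
    have hB : v 2 ^ (i q d.natAbs + two q d) ≠ 0 := pow_ne_zero _ v2
    refine mul_right_cancel₀ hB ?_
    rw [h6, mul_assoc]
    congr 1
    rw [← zpow_natCast, ← zpow_natCast, ← zpow_add₀ v2]
    congr 1
    unfold ex
    push_cast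
    ring
  have hx : 0 < v 2 ^ ex q d := zero_lt_iff.2 (zpow_ne_zero _ v2)
  rw [e]
  refine ⟨?_, ?_⟩
  · calc v (anOrder (twist q d) (Λ 1)) * v 2 ^ ex q d ≤ 1 * v 2 ^ ex q d :=
        mul_le_mul_left g4 _
      _ = v 2 ^ ex q d := one_mul _
  · rw [← g5]
    constructor
    · intro h7
      exact mul_right_cancel₀ hx.ne' (h7.trans (one_mul _).symm)
    · intro h7
      rw [h7, one_mul]

theorem tp' {q : ℕ} (hq : q = 3 ∨ q = 7) {d : ℤ} (h : Adm q d) (hC : Crit q d) :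
    TwoPart (twist' q d) (ex q d) := by
  obtain ⟨-, -, c2, -⟩ := base hq h
  obtain ⟨k1, k2⟩ := c2.2 hC
  obtain ⟨f1, f2, f3, f4⟩ := sha' hq h.1 k1 (two_pow k2)
  obtain ⟨Λ, g1, g2, g3⟩ := base' hq h
  have hz := unit_int (z := anOrder (twist' q d) (Λ 1) / 2 ^ ex q d) fun Γ _ v hv => by
    have v2 : v 2 ≠ 0 := (Valuation.ne_zero_iff v).2 two_ne_zero
    rw [map_div₀, map_zpow₀, (g3 Γ v hv).2.2 hC, div_self (zpow_ne_zero _ v2)]
  refine ⟨f1, f2, ?_, Λ, g1, g2, ?_, ?_, hz.2⟩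
  · rw [f4]
    push_cast
    rw [← zpow_natCast]
    congr 1
    unfold ex
    omega
  · intro h0
    apply hz.1
    unfold anOrder
    rw [h0, zero_mul, zero_div, zero_div]
  · intro h0
    apply hz.1
    rw [h0, zero_div]

/-- continuations are unique -/
lemma unique_cont {f g : ℂ → ℂ} (hf : Differentiable ℂ f) (hg : Differentiable ℂ g)
    (h : ∀ s : ℂ, 2 < s.re → f s = g s) : f = g := by
  refine AnalyticOnNhd.eq_of_eventuallyEq (z₀ := 3) (𝕜 := ℂ)
    ((Complex.analyticOnNhd_univ_iff_differentiable).2 hf)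
    ((Complex.analyticOnNhd_univ_iff_differentiable).2 hg) ?_
  have hopen : {s : ℂ | 2 < s.re} ∈ nhds (3 : ℂ) :=
    (isOpen_lt continuous_const Complex.continuous_re).mem_nhds (by norm_num)
  filter_upwards [hopen] with s hs
  exact h s hs

lemma v_integral {Γ : Type} [LinearOrderedCommGroupWithZero Γ] (v : Valuation ℂ Γ) {x : ℂ}
    (h : _root_.IsIntegral ℤ x) : v x ≤ 1 := by
  have h2 : _root_.IsIntegral v.integer x := h.tower_top
  exact (Valuation.integer.integers v).mem_of_integral h2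

lemma v_of_unit {Γ : Type} [LinearOrderedCommGroupWithZero Γ] {v : Valuation ℂ Γ} (t2 : v 2 < 1)
    {z : ℂ} {m : ℤ} (hm : Odd m) (h1 : _root_.IsIntegral ℤ (m * z))
    (h2 : _root_.IsIntegral ℤ (m * z⁻¹)) : v z = 1 ∨ z = 0 := by
  have hv := Pool.Agent.Y698.v_oddI v t2 hm
  have k1 := v_integral v h1
  have k2 := v_integral v h2
  rw [map_mul, hv, one_mul] at k1 k2
  by_cases hz : z = 0
  · exact Or.inr hz
  left
  rw [map_inv₀] at k2
  have hz' : 0 < v z := zero_lt_iff.2 ((Valuation.ne_zero_iff v).2 hz)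
  refine le_antisymm k1 ?_
  rwa [inv_le_one₀ hz'] at k2

theorem tp_iff {q : ℕ} (hq : q = 3 ∨ q = 7) {d : ℤ} (h : Adm q d) :
    TwoPart (twist' q d) (ex q d) ↔ Good q d := by
  constructor
  · rintro ⟨-, -, -, Λ', f1, f2, -, f4, m, hm, i1, i2⟩
    obtain ⟨Λ, g1, g2, g3⟩ := base' hq h
    have e : Λ' = Λ := unique_cont f1 g1 fun s hs => (f2 s hs).trans (g2 s hs).symm
    subst e
    rw [(base hq h).2.2.1]
    by_contra hC
    refine Pool.Agent.Y698.SG.exists_val2 fun Γ _ v hv => ?_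
    have v2 : v 2 ≠ 0 := (Valuation.ne_zero_iff v).2 two_ne_zero
    rcases v_of_unit hv hm i1 i2 with h1 | h1
    · refine hC ((g3 Γ v hv).2.1 ?_)
      rw [map_div₀, map_zpow₀, div_eq_one_iff_eq (zpow_ne_zero _ v2)] at h1
      exact h1
    · rw [div_eq_zero_iff] at h1
      rcases h1 with h1 | h1
      · exact f4 h1
      · exact zpow_ne_zero _ two_ne_zero h1
  · intro h1
    exact tp' hq h ((base hq h).2.2.1.1 h1)

/-! ### the proportions -/

lemma ex_near (q : ℕ) (d : ℤ) :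
    |ex q d - ((ns q d.natAbs : ℤ) - (ni q d.natAbs : ℤ))| ≤ 1 := by
  have h3 : two q d ≤ 2 := by
    unfold two
    split_ifs <;> norm_num
  unfold ex
  rw [s_eq, i_eq, abs_le]
  omega

open Filter Topology in
lemma squeeze_ratio {m a b N : ℕ → ℕ} {c : ℝ}
    (ha : Tendsto (fun X => (a X : ℝ) / (N X : ℝ)) atTop (𝓝 c))
    (hb : Tendsto (fun X => (b X : ℝ) / (N X : ℝ)) atTop (𝓝 0))
    (h1 : ∀ X, m X ≤ a X + b X) (h2 : ∀ X, a X ≤ m X + b X) :
    Tendsto (fun X => (m X : ℝ) / (N X : ℝ)) atTop (𝓝 c) := by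
  have h3 := ha.sub hb
  have h4 := ha.add hb
  rw [sub_zero] at h3
  rw [add_zero] at h4
  refine tendsto_of_tendsto_of_tendsto_of_le_of_le h3 h4 (fun X => ?_) (fun X => ?_)
  · show (a X : ℝ) / (N X : ℝ) - (b X : ℝ) / (N X : ℝ) ≤ (m X : ℝ) / (N X : ℝ)
    rw [← sub_div]
    refine div_le_div_of_nonneg_right ?_ (Nat.cast_nonneg _)
    have : (a X : ℝ) ≤ m X + b X := by exact_mod_cast h2 X
    linarith
  · show (m X : ℝ) / (N X : ℝ) ≤ (a X : ℝ) / (N X : ℝ) + (b X : ℝ) / (N X : ℝ)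
    rw [← add_div]
    refine div_le_div_of_nonneg_right ?_ (Nat.cast_nonneg _)
    exact_mod_cast h1 X

open Pool.Agent.L0h4.T6 (cntZ cntZ_eq) in
lemma cntZ_or (X : ℕ) {T T' T'' : ℤ → Prop} (h : ∀ e, T e → T' e ∨ T'' e) :
    cntZ X T ≤ cntZ X T' + cntZ X T'' := by
  classical
  rw [← cntZ_eq, ← cntZ_eq, ← cntZ_eq]
  refine (Finset.card_le_card fun e he => ?_).trans (Finset.card_union_le _ _)
  rw [Finset.mem_filter] at he
  rw [Finset.mem_union, Finset.mem_filter, Finset.mem_filter]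
  rcases h e he.2 with h1 | h1
  · exact Or.inl ⟨he.1, h1⟩
  · exact Or.inr ⟨he.1, h1⟩

open Pool.Agent.L0h4.T6 (cntZ cntZ_eq) in
lemma cntZ_add (X : ℕ) {T T' T'' : ℤ → Prop} (h : ∀ e, T e ↔ T' e ∨ T'' e)
    (h' : ∀ e, T' e → ¬ T'' e) : cntZ X T = cntZ X T' + cntZ X T'' := by
  classical
  rw [← cntZ_eq, ← cntZ_eq, ← cntZ_eq, ← Finset.card_union_of_disjoint]
  · congr 1
    ext e
    rw [Finset.mem_union, Finset.mem_filter, Finset.mem_filter, Finset.mem_filter, h]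
    tauto
  · rw [Finset.disjoint_filter]
    exact fun e _ h1 => h' e h1

lemma sign3 (e : ℤ) : Sign 3 e ↔ Pool.Agent.L0h4.T6.Sg e := by
  unfold Sign
  rw [if_neg (by norm_num), red3]
  exact Iff.rfl

lemma sign7 (e : ℤ) : Sign 7 e ↔ 0 < Pool.Agent.L0h4.T7.rd7 e := by
  unfold Sign
  rw [if_pos rfl, red7]
  exact Iff.rfl

lemma adm_of3 {e : ℤ} (he : Squarefree e) (hs : Sign 3 e) (hne : e ∉ Finset.Icc (-6 : ℤ) 6) :
    Adm 3 e := by
  refine ⟨he, hs, Or.inr ?_⟩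
  rw [Finset.mem_Icc] at hne
  unfold red
  push_cast
  split_ifs with h
  · omega
  · omega

open Filter Topology in
open Pool.Agent.L0h4.T6 (cntZ) in
/-- a finite set has proportion zero -/
lemma fin3 {S : Finset ℕ} (hS : ∀ p ∈ S, p.Prime) (inf : Prop) {d₀ : ℤ} (hd₀ : Squarefree d₀)
    (h₀ : Sign 3 d₀) (Ex : Finset ℤ) :
    Tendsto (fun X : ℕ =>
      ((cntZ X fun e => Squarefree e ∧ ((Pool.Agent.L0h4.T6.Sg e ∧
        Pool.Agent.L0h4.T6.Nr S inf d₀ e) ∧ e ∈ Ex) : ℕ) : ℝ) /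
      ((cntZ X fun e => Squarefree e ∧ (Pool.Agent.L0h4.T6.Sg e ∧
        Pool.Agent.L0h4.T6.Nr S inf d₀ e) : ℕ) : ℝ)) atTop (𝓝 0) := by
  have k1 := Pool.Agent.L0h4.T6.law36_abs hS inf hd₀ ((sign3 _).1 h₀) (Ex := Ex)
    (P := fun e => Pool.Agent.L0h74.E3.Cr (Pool.Agent.L0h4.T6.rd e).natAbs ∨ e ∈ Ex)
    (fun e _ _ hne => by simp [hne])
  have k2 := Pool.Agent.L0h4.T6.law36_abs hS inf hd₀ ((sign3 _).1 h₀) (Ex := Ex)
    (P := fun e => Pool.Agent.L0h74.E3.Cr (Pool.Agent.L0h4.T6.rd e).natAbs ∧ e ∉ Ex)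
    (fun e _ _ hne => by simp [hne])
  have k3 := k1.sub k2
  rw [sub_self] at k3
  refine k3.congr fun X => ?_
  rw [← sub_div]
  congr 1
  rw [sub_eq_iff_eq_add, ← Nat.cast_add, Nat.cast_inj]
  exact cntZ_add X (fun e => by tauto) (fun e => by tauto)

open Classical in
theorem density {q : ℕ} (hq : q = 3 ∨ q = 7) {S : Finset ℕ} (hS : ∀ p ∈ S, p.Prime) (inf : Prop)
    {d₀ : ℤ} (hd₀ : Squarefree d₀) (h₀ : Sign q d₀) :
    Filter.Tendsto (fun X : ℕ =>
        (((Finset.Icc (-(X : ℤ)) X).filter fun d =>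
          Squarefree d ∧ Sign q d ∧ Near S inf d₀ d ∧ TwoPart (twist' q d) (ex q d)).card : ℝ) /
        (((Finset.Icc (-(X : ℤ)) X).filter fun d =>
          Squarefree d ∧ Sign q d ∧ Near S inf d₀ d).card : ℝ)) Filter.atTop
      (nhds ((∏' i : ℕ, (1 - (1 / 2 : ℝ) ^ (2 * i + 1))) / 2)) := by
  simp only [Pool.Agent.L0h4.T6.cntZ_eq]
  rcases hq with rfl | rfl
  · have key := Pool.Agent.L0h4.T6.law36_abs hS inf hd₀ ((sign3 _).1 h₀) (Ex := Finset.Icc (-6) 6)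
      (P := fun d => TwoPart (twist' 3 d) (ex 3 d)) (fun e he hs hne => by
        have hA := adm_of3 he ((sign3 e).2 hs) hne
        rw [tp_iff (Or.inl rfl) hA, (base (Or.inl rfl) hA).2.2.1]
        unfold Crit
        rw [if_neg (by norm_num), red3]
        exact Iff.rfl)
    simp only [← sign3, and_assoc] at key
    exact key
  · have key := Pool.Agent.L0h4.T7.law49_abs hS inf hd₀ ((sign7 _).1 h₀)
      (P := fun d => TwoPart (twist' 7 d) (ex 7 d)) (fun e he hs => by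
        have hA : Adm 7 e := ⟨he, (sign7 e).2 hs, Or.inl rfl⟩
        rw [tp_iff (Or.inr rfl) hA, (base (Or.inr rfl) hA).2.2.1]
        unfold Crit
        rw [if_pos rfl, red7]
        exact Iff.rfl)
    simp only [← sign7, and_assoc] at key
    exact key

open Classical in
theorem law {q : ℕ} (hq : q = 3 ∨ q = 7) {S : Finset ℕ} (hS : ∀ p ∈ S, p.Prime) (inf : Prop)
    {d₀ : ℤ} (hd₀ : Squarefree d₀) (h₀ : Sign q d₀) {z : ℝ} (hz : 0 ≤ z) :
    Filter.Tendsto (fun X : ℕ =>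
        (((Finset.Icc (-(X : ℤ)) X).filter fun d =>
          Squarefree d ∧ Sign q d ∧ Near S inf d₀ d ∧ TwoPart (twist' q d) (ex q d) ∧
            (ex q d : ℝ) ≤ z * √(Real.log (Real.log |(d : ℝ)|) / 2)).card : ℝ) /
        (((Finset.Icc (-(X : ℤ)) X).filter fun d =>
          Squarefree d ∧ Sign q d ∧ Near S inf d₀ d).card : ℝ)) Filter.atTop
      (nhds ((∏' i : ℕ, (1 - (1 / 2 : ℝ) ^ (2 * i + 1))) *
        ∫ t in (0 : ℝ)..z, Real.exp (-(t ^ 2 / 2)) / √(2 * Real.pi))) := by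
  simp only [Pool.Agent.L0h4.T6.cntZ_eq]
  have hab : ∀ e : ℤ, ((e.natAbs : ℕ) : ℝ) = |(e : ℝ)| := fun e => by
    rw [Nat.cast_natAbs, Int.cast_abs]
  rcases hq with rfl | rfl
  · have key := Pool.Agent.L0h4.HN.All.lw3 S hS inf d₀ hd₀ ((sign3 _).1 h₀) (ex 3) (ex_near 3) z hz
    have hb := fin3 hS inf hd₀ h₀ (Finset.Icc (-6) 6)
    simp only [← sign3, and_assoc, hab] at key hb
    refine squeeze_ratio key hb (fun X => cntZ_or X ?_) (fun X => cntZ_or X ?_)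
    · rintro e ⟨h1, h2, h3, h4, h5⟩
      by_cases hne : e ∈ Finset.Icc (-6 : ℤ) 6
      · exact Or.inr ⟨h1, h2, h3, hne⟩
      · have hA := adm_of3 h1 h2 hne
        rw [tp_iff (Or.inl rfl) hA, (base (Or.inl rfl) hA).2.2.1] at h4
        unfold Crit at h4
        rw [if_neg (by norm_num), red3] at h4
        exact Or.inl ⟨h1, h2, h3, h4, h5⟩
    · rintro e ⟨h1, h2, h3, h4, h5⟩
      by_cases hne : e ∈ Finset.Icc (-6 : ℤ) 6
      · exact Or.inr ⟨h1, h2, h3, hne⟩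
      · have hA := adm_of3 h1 h2 hne
        refine Or.inl ⟨h1, h2, h3, ?_, h5⟩
        rw [tp_iff (Or.inl rfl) hA, (base (Or.inl rfl) hA).2.2.1]
        unfold Crit
        rw [if_neg (by norm_num), red3]
        exact h4
  · have key := Pool.Agent.L0h4.HN.All.lw7 S hS inf d₀ hd₀ ((sign7 _).1 h₀) (ex 7) (ex_near 7) z hz
    simp only [← sign7, and_assoc, hab] at key
    refine key.congr fun X => ?_
    congr 3
    funext e
    rw [eq_iff_iff]
    refine and_congr_right fun h1 => and_congr_right fun h2 => and_congr_right fun h3 =>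
      and_congr_left fun _ => ?_
    have hA : Adm 7 e := ⟨h1, h2, Or.inl rfl⟩
    rw [tp_iff (Or.inr rfl) hA, (base (Or.inr rfl) hA).2.2.1]
    unfold Crit
    rw [if_pos rfl, red7]
    exact Iff.rfl

end proof

open Classical in
/-- **The 2-part of the conjecture of Birch and Swinnerton-Dyer for elliptic curves over `ℚ` with
arbitrarily large `Ш[2^∞]`.** -/
theorem result : ∀ q : ℕ, (q = 3 ∨ q = 7) →
    (∀ d : ℤ, Adm q d →
      (∀ v : HeightOneSpectrum (𝓞 ℚ), MinimalAt (overQ (twist' q d)) v) ∧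
      (∃ t : ℕ, Odd t ∧ torsOrder (overQ (twist' q d)) = 2 * t) ∧
      (TwoPart (twist' q d) (ex q d) ↔ Good q d) ∧
      ∃ Λ : ℂ → ℂ, Differentiable ℂ Λ ∧
        (∀ s : ℂ, 2 < s.re → Λ s = (overQ (twist' q d)).LSeries s) ∧
        ∀ (Γ : Type) [LinearOrderedCommGroupWithZero Γ] (v : Valuation ℂ Γ), v 2 < 1 →
          v (anOrder (twist' q d) (Λ 1)) ≤ v 2 ^ ex q d ∧
            (v (anOrder (twist' q d) (Λ 1)) = v 2 ^ ex q d ↔ Good q d)) ∧
    ∀ (S : Finset ℕ) (inf : Prop) (d₀ : ℤ), (∀ p ∈ S, p.Prime) → Squarefree d₀ → Sign q d₀ →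
      Filter.Tendsto (fun X : ℕ =>
        (((Finset.Icc (-(X : ℤ)) X).filter fun d =>
          Squarefree d ∧ Sign q d ∧ Near S inf d₀ d ∧ TwoPart (twist' q d) (ex q d)).card : ℝ) /
        (((Finset.Icc (-(X : ℤ)) X).filter fun d =>
          Squarefree d ∧ Sign q d ∧ Near S inf d₀ d).card : ℝ)) Filter.atTop
        (nhds ((∏' i : ℕ, (1 - (1 / 2 : ℝ) ^ (2 * i + 1))) / 2)) ∧
      ∀ z : ℝ, 0 ≤ z → Filter.Tendsto (fun X : ℕ =>
        (((Finset.Icc (-(X : ℤ)) X).filter fun d =>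
          Squarefree d ∧ Sign q d ∧ Near S inf d₀ d ∧ TwoPart (twist' q d) (ex q d) ∧
            (ex q d : ℝ) ≤ z * √(Real.log (Real.log |(d : ℝ)|) / 2)).card : ℝ) /
        (((Finset.Icc (-(X : ℤ)) X).filter fun d =>
          Squarefree d ∧ Sign q d ∧ Near S inf d₀ d).card : ℝ)) Filter.atTop
        (nhds ((∏' i : ℕ, (1 - (1 / 2 : ℝ) ^ (2 * i + 1))) *
          ∫ t in (0 : ℝ)..z, Real.exp (-(t ^ 2 / 2)) / √(2 * Real.pi))) := by
  intro q hq
  refine ⟨fun d h => ?_, fun S inf d₀ hS hd₀ h₀ =>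
    ⟨density hq hS inf hd₀ h₀, fun z hz => law hq hS inf hd₀ h₀ hz⟩⟩
  obtain ⟨k1, k2, k3, k4, k5⟩ := loc' hq h.1
  obtain ⟨Λ, g1, g2, g3⟩ := base' hq h
  have hb := base hq h
  refine ⟨k1, k2, tp_iff hq h, Λ, g1, g2, fun Γ _ v hv => ?_⟩
  rw [hb.2.2.1]
  exact g3 Γ v hv

end Pool.Agent.Results.MP_4a9ea6_nt.TwoPartUnboundedSha
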